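import Mathlib
import Pool.Agent.Lib.MP_8f66f0_al_Uni.Defs

/-! # Higher Chern characters of the Whitehead group: definitions. -/

set_option autoImplicit false
set_option linter.unusedSectionVars false

namespace Pool.Agent.Lib.MP_8f66f0_al_ChernS

open Pool.Agent.Lib.MP_8f66f0_al_FinQ Pool.Agent.Lib.MP_8f66f0_al_Uni

section cocycles

variable {Γ : Type*} [Group Γ] {S : Type*} [CommRing S]

/-- Homogeneous alternating cyclic cochains with `r` arguments: functions `ω c u` of an
element `c` of the group and of a list `u` of `r` elements, with values in the ring `S` (zero on the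
lists of another length). -/
structure IsHomCochain (r : ℕ) (ω : Γ → List Γ → S) : Prop where
  len : ∀ (c : Γ) (u : List Γ), u.length ≠ r → ω c u = 0
  equivariant : ∀ (x c : Γ) (u : List Γ), ω (x * c * x⁻¹) (u.map (x * ·)) = ω c u
  periodic : ∀ (c : Γ) (u : List Γ) (a : Γ) (v : List Γ), ω c (u ++ c * a :: v) = ω c (u ++ a :: v)
  alternating : ∀ (c : Γ) (u : List Γ) (a b : Γ) (v : List Γ),
    ω c (u ++ a :: b :: v) = - ω c (u ++ b :: a :: v)
  diag : ∀ (c : Γ) (u : List Γ) (a : Γ) (v : List Γ), ω c (u ++ a :: a :: v) = 0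

/-- Homogeneous alternating cyclic cocycles. -/
structure IsHomCocycle (r : ℕ) (ω : Γ → List Γ → S) : Prop extends IsHomCochain r ω where
  cocycle : ∀ (c : Γ) (u : List Γ), ∑ i ∈ Finset.range u.length, (-1) ^ i * ω c (u.eraseIdx i) = 0

/-- The vertices `1, g_0, g_0 g_1, ...` of a word `(g_0, g_1, ...)`, without the product of the
whole word. -/
def verts (w : List Γ) : List Γ := (List.range w.length).map fun j => (w.take j).prod

/-- The pairing of the Chern character of `A` (with inverse `B`) with `ω`: the sum over all words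
`w = (h_0, g_0, ..., h_m, g_m)` and all indices of
`B_{i_0 j_0}(h_0) A_{j_0 i_1}(g_0) B_{i_1 j_1}(h_1) ... A_{j_m i_0}(g_m) ω(h_0 g_0 ... h_m g_m; 1, h_0, h_0 g_0, ...)`.
-/
noncomputable def chern {n : ℕ} (m : ℕ) (A B : Matrix (Fin n) (Fin n) (MonoidAlgebra S Γ))
    (ω : Γ → List Γ → S) : S :=
  wsum B A (m + 1) fun w => ω w.prod (verts w)

end cocycles

section expr

variable {K : Type*} [Ring K]

/-- The polygon with `n` edges `N j, N (j+1)`. -/
def pg (N : ℕ → K) (n : ℕ) : K := ∑ j ∈ Finset.range n, N j * N (j + 1)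

/-- The triangles between the even polygon and the full one. -/
def tri (N : ℕ → K) (Q : ℕ) : K :=
  ∑ t ∈ Finset.range Q, N (2 * t) * N (2 * t + 1) * N (2 * t + 2)

/-- The homotopy between the powers of the two polygons. -/
def hmt (m Q : ℕ) (N : ℕ → K) : K :=
  tri N Q * ∑ k ∈ Finset.range m, (pg (fun j => N (2 * j)) Q) ^ k * (pg N (2 * Q)) ^ (m - 1 - k)

def exE (m n : ℕ) (N : ℕ → K) : K := N 0 * N 1 * (pg N n) ^ m

def exF (m Q : ℕ) (N : ℕ → K) : K :=
  exE m (2 * Q) N + N 1 * hmt m Q (fun j => N (j + 1)) - N 0 * hmt m Q N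

lemma map_pg {K' : Type*} [Ring K'] (f : K →+* K') (N : ℕ → K) (n : ℕ) :
    f (pg N n) = pg (fun j => f (N j)) n := by
  unfold pg
  rw [map_sum]
  exact Finset.sum_congr rfl fun j _ => map_mul _ _ _

lemma map_tri {K' : Type*} [Ring K'] (f : K →+* K') (N : ℕ → K) (n : ℕ) :
    f (tri N n) = tri (fun j => f (N j)) n := by
  unfold tri
  rw [map_sum]
  exact Finset.sum_congr rfl fun j _ => by rw [map_mul, map_mul]

lemma map_hmt {K' : Type*} [Ring K'] (f : K →+* K') (m Q : ℕ) (N : ℕ → K) :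
    f (hmt m Q N) = hmt m Q (fun j => f (N j)) := by
  unfold hmt
  rw [map_mul, map_tri, map_sum]
  congr 1
  refine Finset.sum_congr rfl fun k _ => ?_
  rw [map_mul, map_pow, map_pow, map_pg, map_pg]

lemma map_exE {K' : Type*} [Ring K'] (f : K →+* K') (m n : ℕ) (N : ℕ → K) :
    f (exE m n N) = exE m n (fun j => f (N j)) := by
  unfold exE
  rw [map_mul, map_mul, map_pow, map_pg]

lemma map_exF {K' : Type*} [Ring K'] (f : K →+* K') (m Q : ℕ) (N : ℕ → K) :
    f (exF m Q N) = exF m Q (fun j => f (N j)) := by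
  unfold exF
  rw [map_sub, map_add, map_mul, map_mul, map_hmt, map_hmt, map_exE]

end expr

section words

variable {Γ : Type*} [Group Γ] {S : Type*} [CommRing S]

/-- The letter `a` as an element of the word ring. -/
noncomputable def nn (a : Γ) : MonoidAlgebra S (FreeMonoid Γ) :=
  MonoidAlgebra.single (FreeMonoid.of a) 1

/-- The additive functional on the word ring given by `ω c`. -/
noncomputable def Lc (ω : Γ → List Γ → S) (c : Γ) : MonoidAlgebra S (FreeMonoid Γ) →+ S :=
  lin fun w : FreeMonoid Γ => ω c w.toList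

/-- The vertices of the infinite periodic polygon of the word `w`. -/
def vx (w : List Γ) (j : ℕ) : Γ := w.prod ^ (j / w.length) * (w.take (j % w.length)).prod

/-- `ε(x)` -/
noncomputable def eps (ω : Γ → List Γ → S) (m : ℕ) (x : List Γ) : S :=
  Lc ω x.prod (exE m x.length fun j => nn (vx x j))

/-- `F(e)` for `e` of length `2 Q` -/
noncomputable def FF (ω : Γ → List Γ → S) (m Q : ℕ) (e : List Γ) : S :=
  Lc ω e.prod (exF m Q fun j => nn (vx e j))

end words

/-- Super rings with an odd derivation and a functional, containing the letters. -/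
structure Super {Γ : Type*} [Group Γ] {S : Type*} [CommRing S] (r : ℕ) (ω : Γ → List Γ → S) (c : Γ) (K : Type*) [Ring K]
    (f : MonoidAlgebra S (FreeMonoid Γ) →+* K) (α : K →+* K) (D : K →+ K) (L : K →+ S)
    (deg : ℕ → AddSubgroup K) : Prop where
  L_f : ∀ x, L (f x) = Lc ω c x
  anti : ∀ a b, f (nn a) * f (nn b) = - (f (nn b) * f (nn a))
  sq : ∀ a, f (nn a) * f (nn a) = 0
  period : ∀ a, f (nn (c * a)) = f (nn a)
  α_nn : ∀ a, α (f (nn a)) = - f (nn a)
  D_mul : ∀ x y, D (x * y) = D x * y + α x * D y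
  D_nn : ∀ a, D (f (nn a)) = 1
  L_D : ∀ x, L (D x) = 0
  one_deg : 1 ∈ deg 0
  mul_deg : ∀ a b x y, x ∈ deg a → y ∈ deg b → x * y ∈ deg (a + b)
  nn_deg : ∀ a, f (nn a) ∈ deg 1
  L_deg : ∀ d x, x ∈ deg d → d ≠ r → L x = 0

end Pool.Agent.Lib.MP_8f66f0_al_ChernS
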