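import Mathlib
import Pool.Agent.Lib.MP_8f66f0_al_ChernS.Defs

/-! # Vertices of rotated and contracted words. -/

set_option autoImplicit false
set_option linter.unusedSectionVars false
set_option linter.unusedVariables false

namespace Pool.Agent.Lib.MP_8f66f0_al_ChernS

open Pool.Agent.Lib.MP_8f66f0_al_FinQ Pool.Agent.Lib.MP_8f66f0_al_Uni

variable {Γ : Type*} [Group Γ] {S : Type*} [CommRing S]

/-- Left translation of the letters. -/
noncomputable def trans (x : Γ) : MonoidAlgebra S (FreeMonoid Γ) →+* MonoidAlgebra S (FreeMonoid Γ) :=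
  MonoidAlgebra.mapDomainRingHom S (FreeMonoid.map (x * ·))

theorem vx_trans_single (x : Γ) (w : FreeMonoid Γ) (a : S) :
    trans x (MonoidAlgebra.single w a) =
      MonoidAlgebra.single (FreeMonoid.map (x * ·) w) a := by
  unfold trans
  change MonoidAlgebra.mapDomain _ (MonoidAlgebra.single w a) = _
  rw [MonoidAlgebra.mapDomain_single]

theorem trans_nn (x a : Γ) : trans x (nn a : MonoidAlgebra S (FreeMonoid Γ)) = nn (x * a) := by
  unfold nn
  rw [vx_trans_single, FreeMonoid.map_of]

/-- PROOF: check it on words (`equivariant`). -/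
theorem Lc_trans {r : ℕ} {ω : Γ → List Γ → S} (hω : IsHomCochain r ω) (x c : Γ)
    (z : MonoidAlgebra S (FreeMonoid Γ)) : Lc ω (x * c * x⁻¹) (trans x z) = Lc ω c z := by
  have h : (Lc ω (x * c * x⁻¹)).comp (trans x).toAddMonoidHom = Lc ω c := by
    refine MonoidAlgebra.addMonoidHom_ext fun w a => ?_
    change Lc ω (x * c * x⁻¹) (trans x (MonoidAlgebra.single w a)) = _
    rw [vx_trans_single]
    unfold Lc
    rw [lin_single, lin_single, FreeMonoid.toList_map, hω.equivariant]
  rw [← h]
  rfl

theorem vx_zero (w : List Γ) : vx w 0 = 1 := by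
  unfold vx
  simp

theorem vx_nil (j : ℕ) : vx ([] : List Γ) j = 1 := by
  unfold vx
  simp

theorem vx_of_le (w : List Γ) (j : ℕ) (hj : j ≤ w.length) : vx w j = (w.take j).prod := by
  rcases Nat.eq_zero_or_pos w.length with h0 | h0
  · have hw : w = [] := List.length_eq_zero_iff.1 h0
    subst hw
    rw [vx_nil]
    simp
  · rcases Nat.lt_or_ge j w.length with h1 | h1
    · unfold vx
      rw [Nat.div_eq_of_lt h1, Nat.mod_eq_of_lt h1, pow_zero, one_mul]
    · have h2 : j = w.length := le_antisymm hj h1
      subst h2
      unfold vx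
      rw [Nat.div_self h0, Nat.mod_self, List.take_length, pow_one]
      simp

theorem vx_add (w : List Γ) (hw : w ≠ []) (j : ℕ) : vx w (j + w.length) = w.prod * vx w j := by
  have h0 : 0 < w.length := List.length_pos_iff.2 hw
  unfold vx
  rw [Nat.add_div_right _ h0, Nat.add_mod_right, pow_succ', mul_assoc]

theorem prod_rotate_one (a : Γ) (w : List Γ) :
    ((a :: w).rotate 1).prod = a⁻¹ * (a :: w).prod * a := by
  rw [List.rotate_cons_succ, List.rotate_zero, List.prod_append, List.prod_singleton,
    List.prod_cons, inv_mul_cancel_left]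

theorem vx_rotate_aux (a : Γ) (w : List Γ) (j : ℕ) (hj : j ≤ w.length) :
    vx ((a :: w).rotate 1) j = a⁻¹ * vx (a :: w) (j + 1) := by
  rw [vx_of_le _ _ (by rw [List.length_rotate, List.length_cons]; omega),
    vx_of_le _ _ (by rw [List.length_cons]; omega), List.rotate_cons_succ, List.rotate_zero,
    List.take_append_of_le_length hj, List.take_succ_cons, List.prod_cons, inv_mul_cancel_left]

/-- PROOF: by `vx_add` it is enough to take `j < length`; the vertices of `(a :: w).rotate 1 = w ++ [a]`. -/
theorem vx_rotate_one (a : Γ) (w : List Γ) (j : ℕ) :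
    vx ((a :: w).rotate 1) j = a⁻¹ * vx (a :: w) (j + 1) := by
  induction j using Nat.strong_induction_on with
  | _ j ih =>
    rcases Nat.lt_or_ge w.length j with h | h
    · obtain ⟨i, rfl⟩ : ∃ i, j = i + (w.length + 1) := ⟨j - (w.length + 1), by omega⟩
      have e1 : vx ((a :: w).rotate 1) (i + (w.length + 1)) =
          ((a :: w).rotate 1).prod * vx ((a :: w).rotate 1) i := by
        have h1 := vx_add ((a :: w).rotate 1) (by
          rw [List.rotate_cons_succ, List.rotate_zero]
          exact List.append_ne_nil_of_right_ne_nil _ (List.cons_ne_nil _ _)) i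
        rwa [List.length_rotate, List.length_cons] at h1
      have e2 : vx (a :: w) (i + (w.length + 1) + 1) = (a :: w).prod * vx (a :: w) (i + 1) := by
        have h1 := vx_add (a :: w) (List.cons_ne_nil _ _) (i + 1)
        rw [List.length_cons] at h1
        rw [← h1]
        congr 1
        omega
      rw [e1, e2, ih i (by omega), prod_rotate_one]
      group
    · exact vx_rotate_aux a w j h

theorem vx_d0_cons (h g : Γ) (e : List Γ) : d0 (h :: g :: e) = (h * g) :: d0 e := rfl

theorem vx_d0_nil : d0 ([] : List Γ) = [] := rfl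

theorem vx_d0_one (h : Γ) : d0 ([h] : List Γ) = [] := rfl

theorem prod_d0 (Q : ℕ) (e : List Γ) (he : e.length = 2 * Q) : (d0 e).prod = e.prod := by
  induction Q generalizing e with
  | zero =>
    have hw : e = [] := List.length_eq_zero_iff.1 (by omega)
    subst hw
    rfl
  | succ Q ih =>
    match e, he with
    | [], he => simp at he
    | [h], he => simp at he; omega
    | h :: g :: e, he =>
      rw [vx_d0_cons, List.prod_cons, List.prod_cons, List.prod_cons, ih e (by
        simp only [List.length_cons] at he; omega), mul_assoc]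

theorem length_d0 (Q : ℕ) (e : List Γ) (he : e.length = 2 * Q) : (d0 e).length = Q := by
  induction Q generalizing e with
  | zero =>
    have hw : e = [] := List.length_eq_zero_iff.1 (by omega)
    subst hw
    rfl
  | succ Q ih =>
    match e, he with
    | [], he => simp at he
    | [h], he => simp at he; omega
    | h :: g :: e, he =>
      rw [vx_d0_cons, List.length_cons, ih e (by
        simp only [List.length_cons] at he; omega)]

theorem vx_d0_take (i : ℕ) (e : List Γ) : (d0 e).take i = d0 (e.take (2 * i)) := by
  induction i generalizing e with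
  | zero => simp [vx_d0_nil]
  | succ i ih =>
    match e with
    | [] => simp [vx_d0_nil]
    | [h] => simp [vx_d0_one, mul_add]
    | h :: g :: e =>
      have h2 : 2 * (i + 1) = 2 * i + 1 + 1 := by ring
      rw [h2, List.take_succ_cons, List.take_succ_cons, vx_d0_cons, vx_d0_cons,
        List.take_succ_cons, ih]

theorem vx_d0 (Q : ℕ) (e : List Γ) (he : e.length = 2 * Q) (j : ℕ) : vx (d0 e) j = vx e (2 * j) := by
  unfold vx
  rw [length_d0 Q e he, prod_d0 Q e he, he, Nat.mul_div_mul_left _ _ (by norm_num : 0 < 2),
    Nat.mul_mod_mul_left, vx_d0_take, prod_d0 (min (j % Q) Q)]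
  rw [List.length_take, he]
  omega

theorem vx_d0_append (Q : ℕ) (e : List Γ) (he : e.length = 2 * Q) (h g : Γ) :
    d0 (e ++ [h, g]) = d0 e ++ [h * g] := by
  induction Q generalizing e with
  | zero =>
    have hw : e = [] := List.length_eq_zero_iff.1 (by omega)
    subst hw
    rfl
  | succ Q ih =>
    match e, he with
    | [], he => simp at he
    | [h'], he => simp at he; omega
    | h' :: g' :: e, he =>
      rw [List.cons_append, List.cons_append, vx_d0_cons, vx_d0_cons, List.cons_append, ih e (by
        simp only [List.length_cons] at he; omega)]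

theorem vx_d0_rotate_two (Q : ℕ) (e : List Γ) (he : e.length = 2 * Q) :
    d0 (e.rotate 2) = (d0 e).rotate 1 := by
  match e, he with
  | [], he => rfl
  | [h], he => simp at he; omega
  | h :: g :: e, he =>
    have h1 : (h :: g :: e).rotate 2 = e ++ [h, g] := by
      rw [List.rotate_cons_succ, List.cons_append, List.rotate_cons_succ, List.rotate_zero,
        List.append_assoc]
      rfl
    rw [h1, vx_d0_cons, List.rotate_cons_succ, List.rotate_zero, vx_d0_append (Q - 1) e (by
      simp only [List.length_cons] at he; omega)]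

/-- `d0` and rotation. -/
theorem d0_rotate (Q : ℕ) (e : List Γ) (he : e.length = 2 * Q) (t : ℕ) :
    d0 (e.rotate (2 * t)) = (d0 e).rotate t := by
  induction t generalizing e with
  | zero => simp
  | succ t ih =>
    have h1 : e.rotate (2 * (t + 1)) = (e.rotate 2).rotate (2 * t) := by
      rw [List.rotate_rotate]
      congr 1
      ring
    have h2 : (d0 e).rotate (t + 1) = ((d0 e).rotate 1).rotate t := by
      rw [List.rotate_rotate, add_comm]
    rw [h1, h2, ih (e.rotate 2) (by rw [List.length_rotate, he]), vx_d0_rotate_two Q e he]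

end Pool.Agent.Lib.MP_8f66f0_al_ChernS
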