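import Mathlib
import Pool.Agent.Lib.MP_8f66f0_al_ChernS.Defs2
import Pool.Agent.Lib.MP_8f66f0_al_ChernS.Vx

/-! # From products in the ring of marked words to products of letters. -/

set_option autoImplicit false
set_option linter.unusedSectionVars false
set_option linter.unusedVariables false

namespace Pool.Agent.Lib.MP_8f66f0_al_ChernS

open Pool.Agent.Lib.MP_8f66f0_al_FinQ Pool.Agent.Lib.MP_8f66f0_al_Uni

variable {Γ : Type*} [Group Γ] {S : Type*} [CommRing S] {ω : Γ → List Γ → S}

/-- Forget the total. -/
noncomputable def bridge_kap : RM S Γ →+ MonoidAlgebra S (FreeMonoid Γ) :=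
  AddMonoidHom.mk' (MonoidAlgebra.mapDomain (fun x : MW Γ => FreeMonoid.ofList x.marks))
    (MonoidAlgebra.mapDomain_add _)

lemma bridge_kap_single (x : MW Γ) (a : S) :
    bridge_kap (MonoidAlgebra.single x a) = MonoidAlgebra.single (FreeMonoid.ofList x.marks) a := by
  change MonoidAlgebra.mapDomain _ (MonoidAlgebra.single x a) = _
  rw [MonoidAlgebra.mapDomain_single]

lemma bridge_trans_single (v : Γ) (w : FreeMonoid Γ) (a : S) :
    trans v (MonoidAlgebra.single w a) = MonoidAlgebra.single (FreeMonoid.map (v * ·) w) a := by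
  change MonoidAlgebra.mapDomain _ (MonoidAlgebra.single w a) = _
  rw [MonoidAlgebra.mapDomain_single]

lemma bridge_trans_trans (v x : Γ) (z : MonoidAlgebra S (FreeMonoid Γ)) :
    trans v (trans x z) = trans (v * x) z := by
  induction z using MonoidAlgebra.induction_linear with
  | zero => simp
  | add z z' h h' => rw [map_add, map_add, map_add, h, h']
  | single w a =>
    rw [bridge_trans_single, bridge_trans_single, bridge_trans_single]
    congr 1
    apply FreeMonoid.toList.injective
    simp [FreeMonoid.toList_map, List.map_map, Function.comp_def, mul_assoc]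

lemma bridge_trans_one (z : MonoidAlgebra S (FreeMonoid Γ)) : trans 1 z = z := by
  induction z using MonoidAlgebra.induction_linear with
  | zero => simp
  | add z z' h h' => rw [map_add, h, h']
  | single w a =>
    rw [bridge_trans_single]
    congr 1
    apply FreeMonoid.toList.injective
    simp [FreeMonoid.toList_map]

/-- The combinations of the marked words of total `g`. -/
noncomputable def bridge_Tot (g : Γ) : AddSubgroup (RM S Γ) :=
  AddSubgroup.closure {z | ∃ (x : MW Γ) (a : S), x.tot = g ∧ z = MonoidAlgebra.single x a}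

lemma bridge_single_mem (x : MW Γ) (a : S) : MonoidAlgebra.single x a ∈ bridge_Tot x.tot :=
  AddSubgroup.subset_closure ⟨x, a, rfl, rfl⟩

lemma bridge_mul_mem {g g' : Γ} {z z' : RM S Γ} (hz : z ∈ bridge_Tot g) (hz' : z' ∈ bridge_Tot g') :
    z * z' ∈ bridge_Tot (g * g') := by
  induction hz using AddSubgroup.closure_induction with
  | mem z h =>
    obtain ⟨x, a, rfl, rfl⟩ := h
    induction hz' using AddSubgroup.closure_induction with
    | mem z' h' =>
      obtain ⟨y, b, rfl, rfl⟩ := h'
      rw [MonoidAlgebra.single_mul_single]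
      exact bridge_single_mem (x * y) (a * b)
    | zero =>
      rw [mul_zero]
      exact zero_mem _
    | add u v _ _ hu hv =>
      rw [mul_add]
      exact add_mem hu hv
    | neg u _ hu =>
      rw [mul_neg]
      exact neg_mem hu
  | zero =>
    rw [zero_mul]
    exact zero_mem _
  | add u v _ _ hu hv =>
    rw [add_mul]
    exact add_mem hu hv
  | neg u _ hu =>
    rw [neg_mul]
    exact neg_mem hu

lemma bridge_kap_mul {g : Γ} {z : RM S Γ} (hz : z ∈ bridge_Tot g) (z' : RM S Γ) :
    bridge_kap (z * z') = bridge_kap z * trans g (bridge_kap z') := by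
  induction hz using AddSubgroup.closure_induction with
  | mem z h =>
    obtain ⟨x, a, rfl, rfl⟩ := h
    induction z' using MonoidAlgebra.induction_linear with
    | zero => simp
    | add u v hu hv => rw [mul_add, map_add, hu, hv, map_add, map_add, mul_add]
    | single y b =>
      rw [MonoidAlgebra.single_mul_single, bridge_kap_single, bridge_kap_single, bridge_kap_single,
        bridge_trans_single, MonoidAlgebra.single_mul_single]
      congr 1
  | zero => simp
  | add u v _ _ hu hv => rw [add_mul, map_add, hu, hv, map_add, add_mul]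
  | neg u _ hu => rw [neg_mul, map_neg, hu, map_neg, neg_mul]

lemma bridge_LM {g : Γ} {z : RM S Γ} (hz : z ∈ bridge_Tot g) : LM ω z = Lc ω g (bridge_kap z) := by
  induction hz using AddSubgroup.closure_induction with
  | mem z h =>
    obtain ⟨x, a, rfl, rfl⟩ := h
    rw [bridge_kap_single]
    unfold LM Lc
    rw [lin_single, lin_single]
    rfl
  | zero => simp
  | add u v _ _ hu hv => rw [map_add, hu, hv, map_add, map_add]
  | neg u _ hu => rw [map_neg, hu, map_neg, map_neg]

lemma bridge_nM_mem : (nM : RM S Γ) ∈ bridge_Tot (1 : Γ) := bridge_single_mem ⟨[1], 1⟩ 1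

lemma bridge_uM_mem (g : Γ) : (uM g : RM S Γ) ∈ bridge_Tot g := bridge_single_mem ⟨[], g⟩ 1

lemma bridge_kap_nM : bridge_kap (nM : RM S Γ) = nn 1 := by
  unfold nM
  rw [bridge_kap_single]
  rfl

lemma bridge_kap_uM (g : Γ) : bridge_kap (uM g : RM S Γ) = 1 := by
  unfold uM
  rw [bridge_kap_single]
  rfl

lemma bridge_yy_mem (t : Ty) (h g : Γ) : (yy t h g : RM S Γ) ∈ bridge_Tot (h * g) := by
  have hn := bridge_nM_mem (Γ := Γ) (S := S)
  have hh := bridge_uM_mem (S := S) h
  have hg := bridge_uM_mem (S := S) g
  have e1 : (nM * uM h * nM * uM g : RM S Γ) ∈ bridge_Tot (h * g) := by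
    have := bridge_mul_mem (bridge_mul_mem (bridge_mul_mem hn hh) hn) hg
    simpa using this
  have e2 : (nM * uM h * nM * uM g * nM : RM S Γ) ∈ bridge_Tot (h * g) := by
    have := bridge_mul_mem e1 hn
    simpa using this
  have e3 : (uM h * uM g : RM S Γ) ∈ bridge_Tot (h * g) := bridge_mul_mem hh hg
  have e4 : (nM * uM h * uM g * nM : RM S Γ) ∈ bridge_Tot (h * g) := by
    have := bridge_mul_mem (bridge_mul_mem (bridge_mul_mem hn hh) hg) hn
    simpa using this
  have e5 : (uM h * nM * uM g * nM : RM S Γ) ∈ bridge_Tot (h * g) := by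
    have := bridge_mul_mem (bridge_mul_mem (bridge_mul_mem hh hn) hg) hn
    simpa using this
  cases t with
  | E => exact e1
  | T => exact e2
  | X s => exact add_mem (add_mem (add_mem e3 (zsmul_mem e4 s)) e1) e5

lemma bridge_kap_yy (t : Ty) (h g : Γ) :
    bridge_kap (yy t h g : RM S Γ) = zz t (nn 1) (nn h) (nn (h * g)) := by
  have hn := bridge_nM_mem (Γ := Γ) (S := S)
  have hh := bridge_uM_mem (S := S) h
  have hg := bridge_uM_mem (S := S) g
  have m1 : (nM * uM h : RM S Γ) ∈ bridge_Tot h := by
    have := bridge_mul_mem hn hh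
    simpa using this
  have m2 : (nM * uM h * nM : RM S Γ) ∈ bridge_Tot h := by
    have := bridge_mul_mem m1 hn
    simpa using this
  have m3 : (nM * uM h * nM * uM g : RM S Γ) ∈ bridge_Tot (h * g) := bridge_mul_mem m2 hg
  have m4 : (nM * uM h * uM g : RM S Γ) ∈ bridge_Tot (h * g) := bridge_mul_mem m1 hg
  have m5 : (uM h * nM : RM S Γ) ∈ bridge_Tot h := by
    have := bridge_mul_mem hh hn
    simpa using this
  have m6 : (uM h * nM * uM g : RM S Γ) ∈ bridge_Tot (h * g) := bridge_mul_mem m5 hg
  have e1 : bridge_kap (nM * uM h * nM * uM g : RM S Γ) = nn 1 * nn h := by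
    rw [bridge_kap_mul m2, bridge_kap_mul m1, bridge_kap_mul hn, bridge_kap_nM, bridge_kap_uM,
      bridge_kap_uM, map_one, map_one, mul_one, mul_one, trans_nn, mul_one]
  have e2 : bridge_kap (nM * uM h * nM * uM g * nM : RM S Γ) = nn 1 * nn h * nn (h * g) := by
    rw [bridge_kap_mul m3, e1, bridge_kap_nM, trans_nn, mul_one]
  have e3 : bridge_kap (uM h * uM g : RM S Γ) = 1 := by
    rw [bridge_kap_mul hh, bridge_kap_uM, bridge_kap_uM, map_one, mul_one]
  have e4 : bridge_kap (nM * uM h * uM g * nM : RM S Γ) = nn 1 * nn (h * g) := by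
    rw [bridge_kap_mul m4, bridge_kap_mul m1, bridge_kap_mul hn, bridge_kap_nM, bridge_kap_uM,
      bridge_kap_uM, map_one, map_one, mul_one, mul_one, trans_nn, mul_one]
  have e5 : bridge_kap (uM h * nM * uM g * nM : RM S Γ) = nn h * nn (h * g) := by
    rw [bridge_kap_mul m6, bridge_kap_mul m5, bridge_kap_mul hh, bridge_kap_nM, bridge_kap_uM,
      bridge_kap_uM, map_one, mul_one, trans_nn, trans_nn, mul_one, mul_one, one_mul]
  cases t with
  | E => exact e1
  | T => exact e2
  | X s =>
    change bridge_kap (uM h * uM g + s • (nM * uM h * uM g * nM) + nM * uM h * nM * uM g +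
      uM h * nM * uM g * nM) = 1 + (s • (nn 1 * nn (h * g)) + (nn 1 * nn h + nn h * nn (h * g)))
    rw [map_add, map_add, map_add, map_zsmul, e1, e3, e4, e5]
    abel

lemma bridge_trans_zz (v : Γ) (t : Ty) (a b c : Γ) :
    trans v (zz t (nn a) (nn b) (nn c) : MonoidAlgebra S (FreeMonoid Γ)) = zz t (nn (v * a)) (nn (v * b)) (nn (v * c)) := by
  cases t with
  | E =>
    simp only [zz]
    rw [map_mul, trans_nn, trans_nn]
  | T =>
    simp only [zz]
    rw [map_mul, map_mul, trans_nn, trans_nn, trans_nn]
  | X s =>
    simp only [zz]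
    rw [map_add, map_add, map_add, map_one, map_zsmul, map_mul, map_mul, map_mul, trans_nn,
      trans_nn, trans_nn]

lemma bridge_main (ts : List Ty) : ∀ (v : Γ) (e : List Γ), e.length = 2 * ts.length →
    trans v (bridge_kap (pp (ts.map yy) e : RM S Γ)) = zp v ts e ∧
      (pp (ts.map yy) e : RM S Γ) ∈ bridge_Tot e.prod := by
  induction ts with
  | nil =>
    intro v e he
    have : e = [] := List.length_eq_zero_iff.1 (by simpa using he)
    subst this
    have e1 : (pp (List.map yy []) [] : RM S Γ) = MonoidAlgebra.single 1 1 := by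
      simp only [List.map_nil, pp]
      rfl
    rw [e1]
    refine ⟨?_, ?_⟩
    · rw [bridge_kap_single, bridge_trans_single]
      rfl
    · exact bridge_single_mem 1 1
  | cons t ts ih =>
    intro v e he
    match e, he with
    | [], he => simp at he
    | [_], he =>
      simp at he
      omega
    | h :: g :: e, he =>
      have he' : e.length = 2 * ts.length := by
        simp only [List.length_cons] at he
        omega
      have hpp : (pp ((t :: ts).map yy) (h :: g :: e) : RM S Γ) =
          yy t h g * pp (ts.map yy) e := by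
        simp only [List.map_cons, pp]
      have hzp : (zp v (t :: ts) (h :: g :: e) : MonoidAlgebra S (FreeMonoid Γ)) =
          zz t (nn v) (nn (v * h)) (nn (v * h * g)) * zp (v * h * g) ts e := by
        simp only [zp]
      rw [hpp, hzp]
      obtain ⟨i1, i2⟩ := ih (v * h * g) e he'
      refine ⟨?_, ?_⟩
      · rw [bridge_kap_mul (bridge_yy_mem t h g), bridge_kap_yy, map_mul, bridge_trans_zz,
          bridge_trans_trans, ← mul_assoc v h g, i1, mul_one]
      · have := bridge_mul_mem (bridge_yy_mem t h g) i2
        simpa [List.prod_cons, mul_assoc] using this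

/-- PROOF. Let `κ : RM S Γ →+ MonoidAlgebra S (FreeMonoid Γ)` forget the total: `κ (single x a) =
single (FreeMonoid.ofList x.marks) a`. If `z` is a combination of marked words of total `g` then
`κ (z * z') = κ z * trans g (κ z')` and `LM ω z = Lc ω g (κ z)`. `yy t h g` has total `h * g` and
`κ (yy t h g) = zz t (nn 1) (nn h) (nn (h * g))`; `trans x (zz t (nn a) (nn b) (nn c)) =
zz t (nn (x a)) ..`; so by induction on `ts` (for all `v`):
`trans v (κ (pp (ts.map yy) e)) = zp v ts e` and `pp (ts.map yy) e` has total `e.prod`, for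
`e.length = 2 * ts.length`. Use `v = 1`, `trans 1 = id`. -/
theorem bridge (ts : List Ty) (e : List Γ) (he : e.length = 2 * ts.length) :
    LM ω (pp (ts.map yy) e) = Lc ω e.prod (zp 1 ts e) ∧
    LM ω (nM * pp (ts.map yy) e) = Lc ω e.prod (nn 1 * zp 1 ts e) := by
  obtain ⟨i1, i2⟩ := bridge_main (S := S) ts 1 e he
  refine ⟨?_, ?_⟩
  · rw [bridge_LM i2, ← i1, bridge_trans_one]
  · have h := bridge_mul_mem bridge_nM_mem i2
    rw [one_mul] at h
    rw [bridge_LM h, bridge_kap_mul bridge_nM_mem, bridge_kap_nM, i1]

lemma bridge_verts_cons (h g : Γ) (e : List Γ) :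
    verts (h :: g :: e) = 1 :: h :: (verts e).map (h * g * ·) := by
  unfold verts
  simp only [List.length_cons, List.range_succ_eq_map, List.map_cons, List.map_map]
  refine congrArg₂ _ (by simp) (congrArg₂ _ (by simp) ?_)
  refine List.map_congr_left fun j _ => ?_
  simp [Function.comp_def, mul_assoc]

lemma bridge_pp_E (m : ℕ) : ∀ (e : List Γ), e.length = 2 * m →
    pp (List.replicate m (yy Ty.E)) e =
      (MonoidAlgebra.single (⟨verts e, e.prod⟩ : MW Γ) 1 : RM S Γ) := by
  induction m with
  | zero =>
    intro e he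
    have : e = [] := List.length_eq_zero_iff.1 (by simpa using he)
    subst this
    simp only [List.replicate_zero, pp]
    rfl
  | succ m ih =>
    intro e he
    match e, he with
    | [], he => simp at he
    | [_], he =>
      simp at he
      omega
    | h :: g :: e, he =>
      have he' : e.length = 2 * m := by
        simp only [List.length_cons] at he
        omega
      have hpp : (pp (List.replicate (m + 1) (yy Ty.E)) (h :: g :: e) : RM S Γ) =
          yy Ty.E h g * pp (List.replicate m (yy Ty.E)) e := by
        simp only [List.replicate_succ, pp]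
      rw [hpp, ih e he', bridge_verts_cons]
      simp only [yy, nM, uM, MonoidAlgebra.single_mul_single, mul_one]
      congr 1
      apply MW.ext
      · simp [MW.mul_marks, MW.mul_tot]
      · simp [MW.mul_tot, mul_assoc]

/-- PROOF. `pp (replicate m (yy E)) e = single ⟨verts e, e.prod⟩ 1`, by induction on `m`. -/
theorem pp_E (m : ℕ) (e : List Γ) (he : e.length = 2 * m) :
    LM ω (pp (List.replicate m (yy Ty.E)) e) = ω e.prod (verts e) := by
  rw [bridge_pp_E m e he]
  unfold LM
  rw [lin_single, one_mul]

lemma bridge_zp (ts : List Ty) : ∀ (v : Γ) (e : List Γ), e.length = 2 * ts.length →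
    (zp v ts e : MonoidAlgebra S (FreeMonoid Γ)) = ((List.range ts.length).map fun j =>
      zz (ts.getD j Ty.E) (nn (v * (e.take (2 * j)).prod)) (nn (v * (e.take (2 * j + 1)).prod))
        (nn (v * (e.take (2 * j + 2)).prod))).prod := by
  induction ts with
  | nil =>
    intro v e he
    simp [zp]
  | cons t ts ih =>
    intro v e he
    match e, he with
    | [], he => simp at he
    | [_], he =>
      simp at he
      omega
    | h :: g :: e, he =>
      have he' : e.length = 2 * ts.length := by
        simp only [List.length_cons] at he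
        omega
      have hzp : (zp v (t :: ts) (h :: g :: e) : MonoidAlgebra S (FreeMonoid Γ)) =
          zz t (nn v) (nn (v * h)) (nn (v * h * g)) * zp (v * h * g) ts e := by
        simp only [zp]
      rw [hzp, ih (v * h * g) e he', List.length_cons, List.range_succ_eq_map, List.map_cons,
        List.prod_cons, List.map_map]
      congr 1
      · simp [mul_assoc]
      · congr 1
        refine List.map_congr_left fun j _ => ?_
        have e0 : 2 * (j + 1) = 2 * j + 1 + 1 := by ring
        have e1 : 2 * (j + 1) + 1 = 2 * j + 1 + 1 + 1 := by ring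
        have e2 : 2 * (j + 1) + 2 = 2 * j + 2 + 1 + 1 := by ring
        simp only [Function.comp_apply, Nat.succ_eq_add_one, List.getD_cons_succ, e0, e1, e2,
          List.take_succ_cons, List.prod_cons, mul_assoc]

/-- PROOF. `zp v ts e = ` the product of the `zz (ts[j]) (v_(2j)) (v_(2j+1)) (v_(2j+2))` where
`v_i = v * (e.take i).prod`; induction on `ts` for all `v`; finally `vx_of_le`. -/
theorem zp_eq (ts : List Ty) (e : List Γ) (he : e.length = 2 * ts.length) :
    (zp 1 ts e : MonoidAlgebra S (FreeMonoid Γ)) = ((List.range ts.length).map fun j =>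
      zz (ts.getD j Ty.E) (nn (vx e (2 * j))) (nn (vx e (2 * j + 1))) (nn (vx e (2 * j + 2)))).prod := by
  rw [bridge_zp ts 1 e he]
  congr 1
  refine List.map_congr_left fun j hj => ?_
  have hj' : j < ts.length := List.mem_range.1 hj
  rw [vx_of_le e (2 * j) (by omega), vx_of_le e (2 * j + 1) (by omega),
    vx_of_le e (2 * j + 2) (by omega), one_mul, one_mul, one_mul]

end Pool.Agent.Lib.MP_8f66f0_al_ChernS
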