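import Mathlib
import Pool.Agent.Lib.MP_8f66f0_al_ChernS.Defs2
import Pool.Agent.Lib.MP_8f66f0_al_ChernS.Vx
import Pool.Agent.Lib.MP_8f66f0_al_Uni.LemmaB

/-! # The core of the argument. -/

set_option autoImplicit false
set_option linter.unusedSectionVars false
set_option linter.unusedVariables false

namespace Pool.Agent.Lib.MP_8f66f0_al_ChernS

open Pool.Agent.Lib.MP_8f66f0_al_FinQ Pool.Agent.Lib.MP_8f66f0_al_Uni

variable {Γ : Type*} [Group Γ] {S : Type*} [CommRing S]

theorem core_abel (f : ℕ → S) (Q : ℕ) :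
    ∑ t ∈ Finset.range Q, (t : S) * (f (t + 1) - f t) =
      Q * f Q - ∑ t ∈ Finset.range Q, f t - f Q + f 0 := by
  induction Q with
  | zero => simp
  | succ Q ih =>
    rw [Finset.sum_range_succ, ih, Finset.sum_range_succ]
    push_cast
    ring

theorem core_rot {P : List Γ → Prop} {k N : ℕ}
    (h : ∀ x : List Γ, x.length = N → P x → P (x.rotate k)) (x : List Γ) (hx : x.length = N)
    (hP : P x) (t : ℕ) : P (x.rotate (k * t)) := by
  induction t with
  | zero => simpa using hP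
  | succ t ih =>
    have h1 := h (x.rotate (k * t)) (by rw [List.length_rotate, hx]) ih
    rw [List.rotate_rotate] at h1
    exact h1

theorem core_rot_iff {P : List Γ → Prop} {k N m : ℕ} (hN : N = k * (m + 1))
    (h : ∀ x : List Γ, x.length = N → P x → P (x.rotate k)) (x : List Γ) (hx : x.length = N) :
    P (x.rotate k) ↔ P x := by
  refine ⟨fun hP => ?_, h x hx⟩
  have h1 := core_rot h (x.rotate k) (by rw [List.length_rotate, hx]) hP m
  rw [List.rotate_rotate] at h1
  have h2 : k + k * m = x.length := by rw [hx, hN]; ring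
  rwa [h2, List.rotate_length] at h1

/-- the weighted sum over the rotations -/
def core_S (ε : List Γ → S) (Q : ℕ) (x : List Γ) : S :=
  ∑ t ∈ Finset.range Q, (t : S) * ε (x.rotate t)

theorem core_S_rot {ε : List Γ → S} {Q : ℕ} (x : List Γ) (hx : x.length = Q)
    (P1 : ∑ t ∈ Finset.range Q, ε (x.rotate t) = 0) :
    core_S ε Q (x.rotate 1) = core_S ε Q x + Q * ε x := by
  have h1 := core_abel (fun t => ε (x.rotate t)) Q
  rw [P1] at h1
  have h2 : x.rotate Q = x := by rw [← hx, List.rotate_length]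
  rw [h2, List.rotate_zero] at h1
  unfold core_S
  have h3 : ∀ t : ℕ, (x.rotate 1).rotate t = x.rotate (t + 1) := by
    intro t
    rw [List.rotate_rotate, add_comm]
  simp only [h3]
  simp only [mul_sub] at h1
  rw [Finset.sum_sub_distrib] at h1
  linear_combination h1

theorem core_F {ε F : List Γ → S} {Q : ℕ}
    (P2 : ∀ e : List Γ, e.length = 2 * Q →
      F (e.rotate 2) - F e = ε (d0 (e.rotate 1)) - ε (d0 e)) (e : List Γ)
    (he : e.length = 2 * Q) :
    ∑ t ∈ Finset.range Q, F (e.rotate (2 * t)) =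
      Q * F e - core_S ε Q (d0 (e.rotate 1)) + core_S ε Q (d0 e) := by
  have h1 := core_abel (fun t => F (e.rotate (2 * t))) Q
  have h2 : e.rotate (2 * Q) = e := by rw [← he, List.rotate_length]
  rw [h2, Nat.mul_zero, List.rotate_zero] at h1
  have h3 : ∀ t : ℕ, F (e.rotate (2 * (t + 1))) - F (e.rotate (2 * t)) =
      ε ((d0 (e.rotate 1)).rotate t) - ε ((d0 e).rotate t) := by
    intro t
    have h4 := P2 (e.rotate (2 * t)) (by rw [List.length_rotate, he])
    have h5 : (e.rotate (2 * t)).rotate 1 = (e.rotate 1).rotate (2 * t) := by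
      rw [List.rotate_rotate, List.rotate_rotate, add_comm]
    rw [List.rotate_rotate, h5, d0_rotate Q (e.rotate 1) (by rw [List.length_rotate, he]),
      d0_rotate Q e he] at h4
    exact h4
  simp only [h3, mul_sub] at h1
  rw [Finset.sum_sub_distrib] at h1
  unfold core_S
  linear_combination h1

theorem core_wrot {n : ℕ} (B A : Matrix (Fin n) (Fin n) (MonoidAlgebra S Γ)) (Q : ℕ)
    (G : List Γ → S) (t : ℕ) :
    wsum B A Q (fun e => G (e.rotate (2 * t))) = wsum B A Q G := by
  induction t with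
  | zero => simp
  | succ t ih =>
    rw [← ih, ← wsum_rotate B A Q (fun w => G (w.rotate (2 * t)))]
    refine wsum_congr B A Q fun w _ => ?_
    rw [List.rotate_rotate]
    congr 2
    ring

theorem core_count {q : ℕ} [NeZero q] (h : ZMod q → S) (r : ℕ) :
    ∑ t ∈ Finset.range (q * r), h (t : ZMod q) = r * ∑ a, h a := by
  induction r with
  | zero => simp
  | succ r ih =>
    rw [Nat.mul_succ, Finset.sum_range_add, ih]
    have h1 : ∑ s ∈ Finset.range q, h ((q * r + s : ℕ) : ZMod q) = ∑ a, h a := by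
      refine Finset.sum_nbij' (fun s => ((s : ℕ) : ZMod q)) (fun a => a.val) ?_ ?_ ?_ ?_ ?_
      · intro s _
        exact Finset.mem_univ _
      · intro a _
        exact Finset.mem_range.2 (ZMod.val_lt a)
      · intro s hs
        exact ZMod.val_cast_of_lt (Finset.mem_range.1 hs)
      · intro a _
        exact ZMod.natCast_zmod_val a
      · intro s _
        congr 1
        push_cast
        simp
    rw [h1]
    push_cast
    ring

theorem core_ph {σ : List Γ → List Γ} {P : List Γ → Prop} {q : ℕ} {θ : List Γ → ℤ}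
    (h : IsPh σ P q θ) (x : List Γ) (hx : P x) :
    ((θ (σ x) : ℤ) : ZMod q) = ((θ x : ℤ) : ZMod q) + 1 := by
  have h1 := (ZMod.intCast_zmod_eq_zero_iff_dvd _ q).2 (h.shift x hx)
  push_cast at h1
  linear_combination h1

open Classical in
/-- the indicator function of a phase -/
noncomputable def core_I (q : ℕ) (Y : List Γ → Prop) (Θ : List Γ → ℤ) (a : ZMod q)
    (e : List Γ) : S := if Y e ∧ ((Θ e : ℤ) : ZMod q) = a then 1 else 0

theorem core_I_zero {q : ℕ} {Y : List Γ → Prop} {Θ : List Γ → ℤ} {a : ZMod q} {e : List Γ}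
    (h : ¬ Y e) : (core_I q Y Θ a e : S) = 0 := by
  unfold core_I
  rw [if_neg fun h' => h h'.1]

theorem core_I_rot {q N k m : ℕ} {Y : List Γ → Prop} {Θ : List Γ → ℤ} (hN : N = k * (m + 1))
    (hYr : ∀ e : List Γ, e.length = N → Y e → Y (e.rotate k))
    (hΘ : IsPh (fun x : List Γ => x.rotate k) (fun e => e.length = N ∧ Y e) q Θ)
    (a : ZMod q) (e : List Γ) (he : e.length = N) :
    (core_I q Y Θ (a + 1) (e.rotate k) : S) = core_I q Y Θ a e := by
  unfold core_I
  rw [core_rot_iff hN hYr e he]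
  by_cases hY : Y e
  · have h1 := core_ph hΘ e ⟨he, hY⟩
    rw [h1]
    simp only [hY, true_and, add_left_inj]
  · simp only [hY, false_and]

theorem core_I_sum {q : ℕ} [NeZero q] (Y : List Γ → Prop) (Θ : List Γ → ℤ) (e : List Γ) (hY : Y e) :
    ∑ a, (core_I q Y Θ a e : S) = 1 := by
  unfold core_I
  simp only [hY, true_and]
  rw [Finset.sum_ite_eq]
  simp

/-- equality on the words with letters in `T` is enough -/
theorem core_congr {n : ℕ} (B A : Matrix (Fin n) (Fin n) (MonoidAlgebra S Γ)) (Q : ℕ)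
    (T : Set Γ) (hB : ∀ i j g, (B i j).coeff g ≠ 0 → g ∈ T)
    (hA : ∀ i j g, (A i j).coeff g ≠ 0 → g ∈ T) {F F' : List Γ → S}
    (h : ∀ w : List Γ, w.length = 2 * Q → (∀ g ∈ w, g ∈ T) → F w = F' w) :
    wsum B A Q F = wsum B A Q F' := by
  have h1 : wsum B A Q F = wsum B A Q F' + wsum B A Q (fun w => F w - F' w) := by
    rw [← wsum_add]
    congr 1
    funext w
    ring
  have h2 : wsum B A Q (fun w => F w - F' w) = 0 :=
    wsum_eq_zero_of_support B A Q T hB hA (fun w hw hT => by rw [h w hw hT, sub_self])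
  rw [h1, h2, add_zero]

/-- letters of a word with letters multiplied in pairs -/
theorem core_mem_d0 {T : Set Γ} : ∀ (Q : ℕ) (e : List Γ), e.length = 2 * Q → (∀ g ∈ e, g ∈ T) →
    ∀ g ∈ d0 e, ∃ a ∈ T, ∃ b ∈ T, g = a * b
  | 0, e, he, _, g, hg => by
    have : e = [] := List.length_eq_zero_iff.1 (by simpa using he)
    rw [this] at hg
    simp [d0] at hg
  | Q + 1, e, he, hT, g, hg => by
    match e, he with
    | [], h => simp at h
    | [a], h =>
      simp at h
      omega
    | a :: b :: e', h =>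
      have h' : e'.length = 2 * Q := by
        simp only [List.length_cons] at h
        omega
      simp only [d0, List.mem_cons] at hg
      rcases hg with hg | hg
      · exact ⟨a, hT a (by simp), b, hT b (by simp), hg⟩
      · exact core_mem_d0 Q e' h' (fun g hg => hT g (by simp [hg])) g hg

/-- Comparison of the two phases. -/
theorem core_cmp {n : ℕ} (A B : Matrix (Fin n) (Fin n) (MonoidAlgebra S Γ)) (Q q : ℕ)
    [NeZero q] (m : ℕ) (hm : Q = m + 1)
    (T : Set Γ) (hB : ∀ i j g, (B i j).coeff g ≠ 0 → g ∈ T)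
    (hA : ∀ i j g, (A i j).coeff g ≠ 0 → g ∈ T)
    (ε : List Γ → S)
    (P1 : ∀ x : List Γ, x.length = Q → ∑ t ∈ Finset.range Q, ε (x.rotate t) = 0)
    (X Y : List Γ → Prop) (θ Θ : List Γ → ℤ)
    (hXr : ∀ x : List Γ, x.length = Q → X x → X (x.rotate 1))
    (hYr : ∀ e : List Γ, e.length = 2 * Q → Y e → Y (e.rotate 2))
    (hθ : IsPh (fun x : List Γ => x.rotate 1) (fun x => x.length = Q ∧ X x) q θ)
    (hΘ : IsPh (fun x : List Γ => x.rotate 2) (fun e => e.length = 2 * Q ∧ Y e) q Θ)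
    (hε : ∀ x : List Γ, x.length = Q → (∀ g ∈ x, ∃ a ∈ T, ∃ b ∈ T, g = a * b) →
      ¬ X x → ε x = 0)
    (D : List Γ → List Γ) (hDl : ∀ e : List Γ, e.length = 2 * Q → (D e).length = Q)
    (hDT : ∀ e : List Γ, e.length = 2 * Q → (∀ g ∈ e, g ∈ T) →
      ∀ g ∈ D e, ∃ a ∈ T, ∃ b ∈ T, g = a * b)
    (hDr : ∀ e : List Γ, e.length = 2 * Q → D (e.rotate 2) = (D e).rotate 1)
    (hXY : ∀ e : List Γ, e.length = 2 * Q → (∀ g ∈ e, g ∈ T) → X (D e) → Y e) :
    (Q : S) ∣ wsum B A Q (fun e => core_S ε Q (D e) * core_I q Y Θ 0 e) -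
      wsum B A Q (fun e => core_S ε Q (D e) * core_I q X θ 0 (D e)) := by
  have hN1 : Q = 1 * (m + 1) := by rw [hm, one_mul]
  have hN2 : 2 * Q = 2 * (m + 1) := by rw [hm]
  -- the weighted sum vanishes outside of `X`
  have hS0 : ∀ x : List Γ, x.length = Q → (∀ g ∈ x, ∃ a ∈ T, ∃ b ∈ T, g = a * b) →
      ¬ X x → core_S ε Q x = 0 := by
    intro x hx hxT hX
    unfold core_S
    refine Finset.sum_eq_zero fun t _ => ?_
    have h1 : ¬ X (x.rotate t) := by
      have h2 := core_rot (P := fun x => ¬ X x) (k := 1) (N := Q)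
        (fun y hy hXy h => hXy ((core_rot_iff hN1 hXr y hy).1 h)) x hx hX t
      rwa [one_mul] at h2
    rw [hε _ (by rw [List.length_rotate, hx]) (fun g hg => hxT g (List.mem_rotate.1 hg)) h1,
      mul_zero]
  set E : ZMod q → ZMod q → List Γ → S := fun a b e =>
    core_S ε Q (D e) * (core_I q Y Θ a e * core_I q X θ b (D e)) with hE
  have hE1 : ∀ a b, (Q : S) ∣ wsum B A Q (E (a + 1) (b + 1)) - wsum B A Q (E a b) := by
    intro a b
    rw [← wsum_rotate B A Q (E (a + 1) (b + 1))]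
    refine LemmaB.wsum_dvd B A Q _ fun e he => ?_
    simp only [hE]
    rw [hDr e he, core_I_rot hN2 hYr hΘ a e he, core_I_rot hN1 hXr hθ b (D e) (hDl e he),
      core_S_rot (D e) (hDl e he) (P1 _ (hDl e he))]
    exact ⟨ε (D e) * (core_I q Y Θ a e * core_I q X θ b (D e)), by ring⟩
  set mk := Ideal.Quotient.mk (Ideal.span {(Q : S)}) with hmk
  have hmk0 : ∀ x y : S, (Q : S) ∣ x - y → mk x = mk y := by
    intro x y h
    exact Ideal.Quotient.eq.2 (Ideal.mem_span_singleton.2 h)
  have hE2 : ∀ b c : ZMod q, mk (wsum B A Q (E c (b + c))) = mk (wsum B A Q (E 0 (b + 0))) := by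
    intro b
    refine LemmaB.const_of_add_one (fun c => mk (wsum B A Q (E c (b + c)))) ?_
    intro c
    rw [← add_assoc]
    exact hmk0 _ _ (hE1 c (b + c))
  have hE3 : ∀ b : ZMod q, mk (wsum B A Q (E 0 b)) = mk (wsum B A Q (E (-b) 0)) := by
    intro b
    have h1 := hE2 b (-b)
    rw [add_neg_cancel, add_zero] at h1
    exact h1.symm
  have h1 : wsum B A Q (fun e => core_S ε Q (D e) * core_I q Y Θ 0 e) =
      ∑ b, wsum B A Q (E 0 b) := by
    rw [← LemmaB.wsum_finsum]
    refine core_congr B A Q T hB hA fun e he heT => ?_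
    simp only [hE]
    by_cases hX : X (D e)
    · rw [← Finset.mul_sum, ← Finset.mul_sum, core_I_sum X θ _ hX, mul_one]
    · rw [hS0 _ (hDl e he) (hDT e he heT) hX]
      simp
  have h2 : wsum B A Q (fun e => core_S ε Q (D e) * core_I q X θ 0 (D e)) =
      ∑ a, wsum B A Q (E a 0) := by
    rw [← LemmaB.wsum_finsum]
    refine core_congr B A Q T hB hA fun e he heT => ?_
    simp only [hE]
    by_cases hX : X (D e)
    · rw [← Finset.mul_sum, ← Finset.sum_mul, core_I_sum Y Θ _ (hXY e he heT hX), one_mul]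
    · rw [hS0 _ (hDl e he) (hDT e he heT) hX]
      simp
  rw [← Ideal.mem_span_singleton, ← Ideal.Quotient.eq]
  change mk _ = mk _
  rw [h1, h2, map_sum, map_sum]
  rw [Finset.sum_congr rfl fun b _ => hE3 b]
  exact Fintype.sum_equiv (Equiv.neg (ZMod q)) _ _ fun b => rfl

theorem core_d0 {n : ℕ} (A B : Matrix (Fin n) (Fin n) (MonoidAlgebra S Γ)) (hBA : B * A = 1)
    (Q : ℕ) (f : List Γ → S) (h1 : f (List.replicate Q 1) = 0) :
    wsum B A Q (fun w => f (d0 w)) = 0 := by
  refine wsum_d0 (MonoidHom.id Γ) 0 ?_ Q ?_ h1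
  · intro i j
    rw [hBA, sub_self]
    exact zero_mem _
  · intro u v k hk g
    have h2 : k = 1 := hk
    rw [h2]
    change f (u ++ (1 * g) :: v) - f (u ++ g :: v) = 0
    rw [one_mul, sub_self]

/-- The core of the argument. -/
theorem core {n : ℕ} (A B : Matrix (Fin n) (Fin n) (MonoidAlgebra S Γ)) (hAB : A * B = 1)
    (hBA : B * A = 1) (Q q r0 : ℕ) (hq : 0 < q) (hr0 : 0 < r0) (hQ : Q = q * r0)
    (T : Set Γ) (hB : ∀ i j g, (B i j).coeff g ≠ 0 → g ∈ T)
    (hA : ∀ i j g, (A i j).coeff g ≠ 0 → g ∈ T)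
    (ε F : List Γ → S)
    (P1 : ∀ x : List Γ, x.length = Q → ∑ t ∈ Finset.range Q, ε (x.rotate t) = 0)
    (P2 : ∀ e : List Γ, e.length = 2 * Q →
      F (e.rotate 2) - F e = ε (d0 (e.rotate 1)) - ε (d0 e))
    (X Y : List Γ → Prop) (θ Θ : List Γ → ℤ)
    (hXr : ∀ x : List Γ, x.length = Q → X x → X (x.rotate 1))
    (hYr : ∀ e : List Γ, e.length = 2 * Q → Y e → Y (e.rotate 2))
    (hθ : IsPh (fun x : List Γ => x.rotate 1) (fun x => x.length = Q ∧ X x) q θ)
    (hΘ : IsPh (fun x : List Γ => x.rotate 2) (fun e => e.length = 2 * Q ∧ Y e) q Θ)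
    (hε : ∀ x : List Γ, x.length = Q → (∀ g ∈ x, ∃ a ∈ T, ∃ b ∈ T, g = a * b) →
      ¬ X x → ε x = 0)
    (hF : ∀ e : List Γ, e.length = 2 * Q → (∀ g ∈ e, g ∈ T) → ¬ Y e → F e = 0)
    (h1 : ¬ X (List.replicate Q 1))
    (hXY0 : ∀ e : List Γ, e.length = 2 * Q → (∀ g ∈ e, g ∈ T) → X (d0 e) → Y e)
    (hXY1 : ∀ e : List Γ, e.length = 2 * Q → (∀ g ∈ e, g ∈ T) → X (d0 (e.rotate 1)) → Y e) :
    (Q : S) ∣ r0 * wsum B A Q F := by
  have hqz : NeZero q := ⟨hq.ne'⟩
  have hQ0 : 0 < Q := by rw [hQ]; exact Nat.mul_pos hq hr0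
  obtain ⟨m, hm⟩ : ∃ m, Q = m + 1 := ⟨Q - 1, by omega⟩
  have hN2 : 2 * Q = 2 * (m + 1) := by rw [hm]
  -- (3)
  have hA' : wsum B A Q F = ∑ a, wsum B A Q (fun e => F e * core_I q Y Θ a e) := by
    rw [← LemmaB.wsum_finsum]
    refine core_congr B A Q T hB hA fun e he heT => ?_
    by_cases hY : Y e
    · rw [← Finset.mul_sum, core_I_sum Y Θ e hY, mul_one]
    · rw [hF e he heT hY]
      simp
  have hB' : ∀ t : ℕ, wsum B A Q (fun e => F e * core_I q Y Θ (t : ZMod q) e) =
      wsum B A Q (fun e => F (e.rotate (2 * t)) * core_I q Y Θ 0 e) := by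
    intro t
    rw [← core_wrot B A Q (fun e => F e * core_I q Y Θ (t : ZMod q) e) t]
    refine wsum_congr B A Q fun e he => ?_
    have h2 : ∀ s : ℕ, (core_I q Y Θ (s : ZMod q) (e.rotate (2 * s)) : S) =
        core_I q Y Θ 0 e := by
      intro s
      induction s with
      | zero => simp
      | succ s ih =>
        have h3 := core_I_rot (S := S) hN2 hYr hΘ (s : ZMod q) (e.rotate (2 * s))
          (by rw [List.length_rotate, he])
        rw [List.rotate_rotate] at h3
        rw [← ih, ← h3]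
        push_cast
        rfl
    rw [h2 t]
  have hC : (r0 : S) * wsum B A Q F =
      ∑ t ∈ Finset.range Q, wsum B A Q (fun e => F (e.rotate (2 * t)) * core_I q Y Θ 0 e) := by
    rw [← Finset.sum_congr rfl fun t _ => hB' t, hQ,
      core_count (fun a => wsum B A (q * r0) (fun e => F e * core_I q Y Θ a e)) r0, ← hQ, ← hA']
  have hD : (r0 : S) * wsum B A Q F =
      Q * wsum B A Q (fun e => F e * core_I q Y Θ 0 e) +
      ((-1) * wsum B A Q (fun e => core_S ε Q (d0 (e.rotate 1)) * core_I q Y Θ 0 e) +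
      wsum B A Q (fun e => core_S ε Q (d0 e) * core_I q Y Θ 0 e)) := by
    rw [hC, ← LemmaB.wsum_finsum, ← wsum_smul, ← wsum_smul, ← wsum_add, ← wsum_add]
    refine wsum_congr B A Q fun e he => ?_
    rw [← Finset.sum_mul, core_F P2 e he]
    ring
  -- (4), (5)
  have hE0 := core_cmp A B Q q m hm T hB hA ε P1 X Y θ Θ hXr hYr hθ hΘ hε d0
    (fun e he => length_d0 Q e he)
    (fun e he heT => core_mem_d0 Q e he heT)
    (fun e he => by
      have h2 := d0_rotate Q e he 1
      rwa [mul_one] at h2) hXY0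
  have hE1 := core_cmp A B Q q m hm T hB hA ε P1 X Y θ Θ hXr hYr hθ hΘ hε
    (fun e => d0 (e.rotate 1))
    (fun e he => length_d0 Q _ (by rw [List.length_rotate, he]))
    (fun e he heT => core_mem_d0 Q (e.rotate 1) (by rw [List.length_rotate, he])
      (fun g hg => heT g (List.mem_rotate.1 hg)))
    (fun e he => by
      have h2 := d0_rotate Q (e.rotate 1) (by rw [List.length_rotate, he]) 1
      have h3 : (e.rotate 2).rotate 1 = (e.rotate 1).rotate (2 * 1) := by
        rw [List.rotate_rotate, List.rotate_rotate]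
      rw [h3, h2]) hXY1
  have hf : (fun x : List Γ => core_S ε Q x * core_I q X θ 0 x) (List.replicate Q 1) = 0 := by
    change core_S ε Q (List.replicate Q 1) * core_I q X θ 0 (List.replicate Q 1) = 0
    rw [core_I_zero h1, mul_zero]
  have h5 := core_d0 A B hBA Q (fun x => core_S ε Q x * core_I q X θ 0 x) hf
  have h6 := core_d0 B A hAB Q (fun x => core_S ε Q x * core_I q X θ 0 x) hf
  have h7 := wsum_rotate_one B A Q (fun w => core_S ε Q (d0 w) * core_I q X θ 0 (d0 w))
  rw [h5, sub_zero] at hE0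
  rw [h7, h6, sub_zero] at hE1
  rw [hD]
  exact dvd_add (dvd_mul_right _ _) (dvd_add (dvd_mul_of_dvd_right hE1 _) hE0)

end Pool.Agent.Lib.MP_8f66f0_al_ChernS
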