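import Mathlib
import Pool.Agent.Lib.MP_8f66f0_al_ChernS.Defs2
import Pool.Agent.Lib.MP_8f66f0_al_Uni.WordD0

/-! # Sums over words of products over pairs of letters. -/

set_option autoImplicit false
set_option linter.unusedSectionVars false
set_option linter.unusedVariables false

namespace Pool.Agent.Lib.MP_8f66f0_al_ChernS

open Pool.Agent.Lib.MP_8f66f0_al_FinQ Pool.Agent.Lib.MP_8f66f0_al_Uni

variable {Γ : Type*} [Group Γ] {S : Type*} [CommRing S] {R : Type*} [Ring R] [Algebra S R] {n : ℕ}

/-- the biadditive extension of `y` -/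
noncomputable def pairs_E (y : Γ → Γ → R) (b a : MonoidAlgebra S Γ) : R :=
  b.coeff.sum fun h r => a.coeff.sum fun g s => (r * s) • y h g

lemma pairs_E_add_left (y : Γ → Γ → R) (b b' a : MonoidAlgebra S Γ) :
    pairs_E y (b + b') a = pairs_E y b a + pairs_E y b' a := by
  unfold pairs_E
  rw [MonoidAlgebra.coeff_add]
  refine Finsupp.sum_add_index' (fun h => ?_) (fun h r r' => ?_)
  · simp [Finsupp.sum]
  · rw [← Finsupp.sum_add]
    refine Finsupp.sum_congr fun g _ => ?_
    rw [add_mul, add_smul]

lemma pairs_E_add_right (y : Γ → Γ → R) (b a a' : MonoidAlgebra S Γ) :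
    pairs_E y b (a + a') = pairs_E y b a + pairs_E y b a' := by
  unfold pairs_E
  rw [← Finsupp.sum_add]
  refine Finsupp.sum_congr fun h _ => ?_
  rw [MonoidAlgebra.coeff_add]
  refine Finsupp.sum_add_index' (fun g => ?_) (fun g s s' => ?_)
  · rw [mul_zero, zero_smul]
  · rw [mul_add, add_smul]

lemma pairs_E_single (y : Γ → Γ → R) (h g : Γ) (r s : S) :
    pairs_E y (MonoidAlgebra.single h r) (MonoidAlgebra.single g s) = (r * s) • y h g := by
  unfold pairs_E
  rw [MonoidAlgebra.coeff_single, MonoidAlgebra.coeff_single, Finsupp.sum_single_index,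
    Finsupp.sum_single_index]
  · rw [mul_zero, zero_smul]
  · simp [Finsupp.sum]

lemma pairs_E_zero_left (y : Γ → Γ → R) (a : MonoidAlgebra S Γ) : pairs_E y 0 a = 0 := by
  unfold pairs_E
  rw [MonoidAlgebra.coeff_zero, Finsupp.sum_zero_index]

lemma pairs_E_zero_right (y : Γ → Γ → R) (b : MonoidAlgebra S Γ) : pairs_E y b 0 = 0 := by
  unfold pairs_E
  simp only [MonoidAlgebra.coeff_zero, Finsupp.sum_zero_index]
  exact Finsupp.sum_fun_zero _

lemma pairs_cons (F : List Γ → S) (h g : Γ) (r s : S) (P : MonoidAlgebra S (FreeMonoid Γ)) :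
    lin (fun w : FreeMonoid Γ => F w.toList)
      (MonoidAlgebra.single (FreeMonoid.of h) r * MonoidAlgebra.single (FreeMonoid.of g) s * P) =
      (r * s) * lin (fun w : FreeMonoid Γ => F (h :: g :: w.toList)) P := by
  induction P using MonoidAlgebra.induction_linear with
  | zero => simp
  | add x x' hx hx' => rw [mul_add, map_add, hx, hx', map_add, mul_add]
  | single w t =>
    rw [MonoidAlgebra.single_mul_single, MonoidAlgebra.single_mul_single, lin_single, lin_single,
      FreeMonoid.toList_mul, FreeMonoid.toList_mul, FreeMonoid.toList_of, FreeMonoid.toList_of,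
      mul_assoc]
    rfl

lemma pairs_key (Φ : R →+ S) (hΦ : ∀ (s : S) (x : R), Φ (s • x) = s * Φ x) (a : R) (y : Γ → Γ → R) (ys : List (Γ → Γ → R))
    (P : MonoidAlgebra S (FreeMonoid Γ)) (Z : R)
    (hP : ∀ a : R, lin (fun w : FreeMonoid Γ => Φ (a * pp ys w.toList)) P = Φ (a * Z))
    (b c : MonoidAlgebra S Γ) :
    lin (fun w : FreeMonoid Γ => Φ (a * pp (y :: ys) w.toList))
      (letter S Γ b * letter S Γ c * P) = Φ (a * (pairs_E y b c * Z)) := by
  induction b using MonoidAlgebra.induction_linear with
  | zero => simp [pairs_E_zero_left]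
  | add b b' hb hb' =>
    rw [map_add, add_mul, add_mul, map_add, hb, hb', pairs_E_add_left, add_mul, mul_add, map_add]
  | single h r =>
    induction c using MonoidAlgebra.induction_linear with
    | zero => simp [pairs_E_zero_right]
    | add c c' hc hc' =>
      rw [map_add, mul_add, add_mul, map_add, hc, hc', pairs_E_add_right, add_mul, mul_add,
        map_add]
    | single g s =>
      rw [letter_single_d0, letter_single_d0,
        pairs_cons (fun w => Φ (a * pp (y :: ys) w)) h g r s P, pairs_E_single]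
      have h1 : ∀ w : FreeMonoid Γ, Φ (a * pp (y :: ys) (h :: g :: w.toList)) =
          Φ ((a * y h g) * pp ys w.toList) := by
        intro w
        rw [pp, ← mul_assoc]
      simp only [h1]
      rw [hP, smul_mul_assoc, mul_smul_comm, hΦ, mul_assoc a]

lemma pairs_gen (A B : Matrix (Fin n) (Fin n) (MonoidAlgebra S Γ)) (Φ : R →+ S)
    (hΦ : ∀ (s : S) (x : R), Φ (s • x) = s * Φ x)
    (ys : List (Γ → Γ → R)) (a : R) (i k : Fin n) :
    lin (fun w : FreeMonoid Γ => Φ (a * pp ys w.toList)) (((letM B * letM A) ^ ys.length) i k) =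
      Φ (a * ((ys.map (ext2 B A)).prod) i k) := by
  induction ys generalizing a i k with
  | nil =>
    rw [List.length_nil, pow_zero, List.map_nil, List.prod_nil]
    by_cases hik : i = k
    · subst hik
      rw [Matrix.one_apply_eq, Matrix.one_apply_eq, MonoidAlgebra.one_def, lin_single, one_mul]
      simp [pp]
    · rw [Matrix.one_apply_ne hik, Matrix.one_apply_ne hik, map_zero, mul_zero, map_zero]
  | cons y ys ih =>
    rw [List.length_cons, pow_succ', Matrix.mul_apply, map_sum, List.map_cons, List.prod_cons,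
      Matrix.mul_apply, Finset.mul_sum, map_sum]
    refine Finset.sum_congr rfl fun l _ => ?_
    rw [Matrix.mul_apply, Finset.sum_mul, map_sum]
    have h1 : ext2 B A y i l = ∑ j, pairs_E y (B i j) (A j l) := rfl
    rw [h1, Finset.sum_mul, Finset.mul_sum, map_sum]
    refine Finset.sum_congr rfl fun j _ => ?_
    rw [letM_apply, letM_apply]
    exact pairs_key Φ hΦ a y ys _ _ (fun a => ih a l k) _ _

/-- PROOF. More generally, for all `i k`,
`lin (fun w => Φ (a * pp ys w.toList)) (((letM B * letM A) ^ ys.length) i k) =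
Φ (a * ((ys.map (ext2 B A)).prod) i k)` by induction on `ys` for all `a` (`pow_succ'`,
`Matrix.mul_apply`; by linearity reduce to `letter (single h b) * letter (single g a') * single w t`,
whose value is `b a' t Φ (a * (y h g * pp ys w))`; apply the induction hypothesis with
`a * y h g`). Compare `dmap_pow`, `lin_letter_mul` in `MP_8f66f0_al_Uni/WordD0.lean`. -/
theorem wsum_pp (A B : Matrix (Fin n) (Fin n) (MonoidAlgebra S Γ)) (Φ : R →+ S)
    (hΦ : ∀ (s : S) (x : R), Φ (s • x) = s * Φ x) (a : R)
    (ys : List (Γ → Γ → R)) :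
    wsum B A ys.length (fun e => Φ (a * pp ys e)) =
      Φ (a * Matrix.trace ((ys.map (ext2 B A)).prod)) := by
  unfold wsum
  rw [Matrix.trace, Matrix.trace, map_sum, Finset.mul_sum, map_sum]
  refine Finset.sum_congr rfl fun i _ => ?_
  rw [Matrix.diag_apply, Matrix.diag_apply]
  exact pairs_gen A B Φ hΦ ys a i i

end Pool.Agent.Lib.MP_8f66f0_al_ChernS
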