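import Mathlib

/-! # Regular factorials. -/

set_option autoImplicit false

namespace Pool.Agent.Lib.MP_8f66f0_al_ChernS

/-- The numbers `1, ..., m` are not zero divisors in `S`. -/
def Reg (S : Type*) [CommRing S] (m : ℕ) : Prop :=
  ∀ k : ℕ, 0 < k → k ≤ m → ∀ x : S, (k : S) * x = 0 → x = 0

variable {S : Type*} [CommRing S]

lemma Reg.mono {m m' : ℕ} (h : Reg S m) (hm : m' ≤ m) : Reg S m' :=
  fun k hk hk' => h k hk (hk'.trans hm)

lemma reg_factorial {m : ℕ} (h : Reg S m) : ∀ j : ℕ, j ≤ m → ∀ x : S,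
    (j.factorial : S) * x = 0 → x = 0 := by
  intro j
  induction j with
  | zero =>
    intro _ x hx
    simpa using hx
  | succ j ih =>
    intro hj x hx
    rw [Nat.factorial_succ, Nat.cast_mul, mul_assoc] at hx
    exact ih (by omega) x (h (j + 1) (by omega) hj _ hx)

lemma reg_choose {m : ℕ} (h : Reg S m) {j k : ℕ} (hj : j ≤ m) (hk : k ≤ j) (x : S)
    (hx : (j.choose k : S) * x = 0) : x = 0 := by
  refine reg_factorial h j hj x ?_
  have h1 := Nat.choose_mul_factorial_mul_factorial hk
  rw [← h1]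
  push_cast
  linear_combination ((k.factorial : S) * ((j - k).factorial : S)) * hx

lemma reg_int (m : ℕ) : Reg ℤ m := by
  intro k hk _ x hx
  rcases mul_eq_zero.1 hx with h | h
  · exact absurd (by exact_mod_cast h) hk.ne'
  · exact h

lemma reg_char {p m : ℕ} (hp : p.Prime) (hpm : m < p) (h0 : (p : S) = 0) : Reg S m := by
  intro k hk hkm x hx
  have h1 : IsCoprime (k : ℤ) (p : ℤ) := by
    rw [Nat.isCoprime_iff_coprime]
    exact ((Nat.Prime.coprime_iff_not_dvd hp).2 fun hd =>
      absurd (Nat.le_of_dvd hk hd) (by omega)).symm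
  obtain ⟨a, b, hab⟩ := h1
  have h2 : ((a : S) * (k : S) + (b : S) * (p : S)) = 1 := by
    exact_mod_cast congrArg (Int.cast : ℤ → S) hab
  rw [h0, mul_zero, add_zero] at h2
  calc x = ((a : S) * (k : S)) * x := by rw [h2, one_mul]
    _ = (a : S) * ((k : S) * x) := by ring
    _ = 0 := by rw [hx, mul_zero]

/-- A polynomial of degree less than `m` vanishing at `0, ..., m - 1` is zero. -/
lemma reg_vandermonde {m : ℕ} (h : Reg S m) (a : Fin m → S)
    (ha : ∀ s : Fin m, ∑ k : Fin m, a k * ((s : ℕ) : S) ^ (k : ℕ) = 0) : ∀ k, a k = 0 := by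
  set V : Matrix (Fin m) (Fin m) S := Matrix.vandermonde (fun s : Fin m => ((s : ℕ) : S)) with hV
  have h1 : V.mulVec a = 0 := by
    funext s
    rw [Matrix.mulVec, dotProduct]
    rw [Pi.zero_apply, ← ha s]
    refine Finset.sum_congr rfl fun k _ => ?_
    rw [hV, Matrix.vandermonde_apply, mul_comm]
  have h2 : V.det • a = 0 := by
    have h3 : (V.adjugate * V).mulVec a = 0 := by
      rw [← Matrix.mulVec_mulVec, h1, Matrix.mulVec_zero]
    rw [Matrix.adjugate_mul, Matrix.smul_mulVec, Matrix.one_mulVec] at h3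
    exact h3
  have hdet : ∀ x : S, V.det * x = 0 → x = 0 := by
    rw [hV, Matrix.det_vandermonde]
    intro x
    have hreg : ∀ i j : Fin m, j ∈ Finset.Ioi i →
        ∀ y : S, ((((j : ℕ) : S)) - ((i : ℕ) : S)) * y = 0 → y = 0 := by
      intro i j hij y hy
      rw [Finset.mem_Ioi] at hij
      have hlt : (i : ℕ) < j := hij
      have e : (((j : ℕ) : S)) - ((i : ℕ) : S) = (((j : ℕ) - (i : ℕ) : ℕ) : S) := by
        rw [Nat.cast_sub hlt.le]
      rw [e] at hy
      exact h _ (by omega) (by omega) y hy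
    have hmul : ∀ a b : S, (∀ y : S, a * y = 0 → y = 0) → (∀ y : S, b * y = 0 → y = 0) →
        ∀ y : S, a * b * y = 0 → y = 0 := fun a b ha hb y hy => hb y (ha _ (by rw [← mul_assoc, hy]))
    exact Finset.prod_induction _ (fun a : S => ∀ y : S, a * y = 0 → y = 0) hmul
      (fun y hy => by simpa using hy) (fun i _ =>
        Finset.prod_induction _ (fun a : S => ∀ y : S, a * y = 0 → y = 0) hmul
          (fun y hy => by simpa using hy) fun j hj => hreg i j hj) x
  intro k
  refine hdet _ ?_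
  have := congrFun h2 k
  simpa using this

end Pool.Agent.Lib.MP_8f66f0_al_ChernS
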