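import Mathlib
import Pool.Agent.Lib.MP_8f66f0_al_ChernS.EvTr
import Pool.Agent.Lib.MP_8f66f0_al_ChernS.Sq
import Pool.Agent.Lib.MP_8f66f0_al_ChernS.Syn

/-! # The sum of the first part of `F`. -/

set_option autoImplicit false
set_option linter.unusedSectionVars false
set_option linter.unusedVariables false

namespace Pool.Agent.Lib.MP_8f66f0_al_ChernS

open Pool.Agent.Lib.MP_8f66f0_al_FinQ Pool.Agent.Lib.MP_8f66f0_al_Uni

universe u v

lemma partB_super {Γ : Type u} [Group Γ] {S : Type v} [CommRing S] {r : ℕ} {ω : Γ → List Γ → S}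
    (hω : IsHomCocycle r ω) (c : Γ) :
    ∃ (K : Type (max u v)) (_ : Ring K) (f : MonoidAlgebra S (FreeMonoid Γ) →+* K) (α : K →+* K)
      (D : K →+ K) (L : K →+ S) (deg : ℕ → AddSubgroup K), Super r ω c K f α D L deg :=
  exists_super hω c

variable {Γ : Type*} [Group Γ] {S : Type*} [CommRing S] {ω : Γ → List Γ → S} {n m : ℕ}

lemma partB_zz {K K' : Type*} [Ring K] [Ring K'] (f : K →+* K') (t : Ty) (a b c : K) :
    f (zz t a b c) = zz t (f a) (f b) (f c) := by
  cases t with
  | E => exact map_mul f a b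
  | T => simp only [zz, map_mul]
  | X s => simp only [zz, map_add, map_mul, map_one, map_zsmul]

lemma partB_sum_even {K : Type*} [AddCommMonoid K] (g : ℕ → K) (Q : ℕ) :
    ∑ j ∈ Finset.range (2 * Q), g j = ∑ j ∈ Finset.range Q, (g (2 * j) + g (2 * j + 1)) := by
  induction Q with
  | zero => simp
  | succ Q ih =>
    rw [Finset.sum_range_succ, ← ih, show 2 * (Q + 1) = 2 * Q + 1 + 1 from by ring,
      Finset.sum_range_succ, Finset.sum_range_succ, add_assoc]

lemma partB_prodTo {K : Type*} [Ring K] (γ : ℕ → K) (n : ℕ) :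
    prodTo γ n = ((List.range n).map fun j => 1 + γ j).prod := by
  induction n with
  | zero => rfl
  | succ n ih =>
    rw [List.range_succ, List.map_append, List.prod_append, ← ih]
    simp [prodTo]

lemma partB_prodTo_succ {K : Type*} [Ring K] (γ : ℕ → K) (n : ℕ) :
    prodTo γ (n + 1) = (1 + γ 0) * ((List.range n).map fun j => 1 + γ (j + 1)).prod := by
  rw [partB_prodTo, List.range_succ_eq_map, List.map_cons, List.prod_cons, List.map_map]
  rfl

/-- products of two elements of an anticommuting family commute with all elements -/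
lemma partB_comm {K : Type*} [Ring K] (N : ℕ → K) (h : ∀ i j, N i * N j = - (N j * N i))
    (i j k : ℕ) : Commute (N i * N j) (N k) := by
  change N i * N j * N k = N k * (N i * N j)
  rw [mul_assoc, h j k, mul_neg, ← mul_assoc, h i k, neg_mul, neg_neg, mul_assoc]

/-- the summand -/
def partB_be {K : Type*} [Ring K] (N : ℕ → K) (j : ℕ) : K :=
  N (2 * j) * N (2 * j + 1) + N (2 * j + 1) * N (2 * j + 2)

lemma partB_be_comm {K : Type*} [Ring K] (N : ℕ → K) (h : ∀ i j, N i * N j = - (N j * N i))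
    (i j : ℕ) : partB_be N i * partB_be N j = partB_be N j * partB_be N i := by
  have h1 : ∀ a b c d, Commute (N a * N b) (N c * N d) := fun a b c d =>
    (partB_comm N h a b c).mul_right (partB_comm N h a b d)
  exact ((h1 _ _ _ _).add_left (h1 _ _ _ _)).add_right ((h1 _ _ _ _).add_left (h1 _ _ _ _))

lemma partB_be_sq {K : Type*} [Ring K] (N : ℕ → K) (h : ∀ i j, N i * N j = - (N j * N i))
    (h0 : ∀ i, N i * N i = 0) (j : ℕ) : partB_be N j * partB_be N j = 0 := by
  unfold partB_be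
  generalize 2 * j = a
  have h1 : N a * N (a + 1) * (N a * N (a + 1)) = 0 := by
    rw [← mul_assoc, (partB_comm N h a (a + 1) a).eq, ← mul_assoc (N a) (N a), h0, zero_mul,
      zero_mul]
  have h2 : N a * N (a + 1) * (N (a + 1) * N (a + 2)) = 0 := by
    rw [mul_assoc, ← mul_assoc (N (a + 1)), h0, zero_mul, mul_zero]
  have h3 : N (a + 1) * N (a + 2) * (N a * N (a + 1)) = 0 := by
    rw [((partB_comm N h (a + 1) (a + 2) a).mul_right (partB_comm N h (a + 1) (a + 2) (a + 1))).eq,
      h2]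
  have h4 : N (a + 1) * N (a + 2) * (N (a + 1) * N (a + 2)) = 0 := by
    rw [← mul_assoc, (partB_comm N h (a + 1) (a + 2) (a + 1)).eq, ← mul_assoc (N (a + 1)), h0,
      zero_mul, zero_mul]
  rw [add_mul, mul_add, mul_add, h1, h2, h3, h4]
  simp

lemma partB_first {K : Type*} [Ring K] (N : ℕ → K) (h : ∀ i j, N i * N j = - (N j * N i))
    (h0 : ∀ i, N i * N i = 0) : N 0 * N 1 * (1 + partB_be N 0) = N 0 * N 1 := by
  unfold partB_be
  have h1 : N 0 * N 1 * (N 0 * N 1) = 0 := by
    rw [← mul_assoc, (partB_comm N h 0 1 0).eq, ← mul_assoc (N 0) (N 0), h0, zero_mul, zero_mul]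
  have h2 : N 0 * N 1 * (N 1 * N 2) = 0 := by
    rw [mul_assoc, ← mul_assoc (N 1), h0, zero_mul, mul_zero]
  change N 0 * N 1 * (1 + (N 0 * N 1 + N 1 * N 2)) = N 0 * N 1
  rw [mul_add, mul_add, h1, h2, mul_one, add_zero, add_zero]

open Nat in
/-- PROOF. `exists_super` at `c = e.prod`; `N j = f (nn (vx e j))`; `β j = N (2j) * N (2j+1) + N (2j+1) * N (2j+2)`,
`pg N (2 Q) = Σ_{j<Q} β j`; the `β j` commute, have square zero and degree 2 (`anti`, `sq`). `sq_pick` with
`x = N 0 * N 1`, `d = 2`: the left side is `m! * L (N 0 * N 1 * prodTo β Q)`, and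
`N 0 * N 1 * (1 + β 0) = N 0 * N 1`. By `zp_eq` the image under `f` of `zp 1 (E :: replicate (Q-1) (X 0)) e` is
`N 0 * N 1 * Π_{1≤j<Q} (1 + β j)`, the same. -/
theorem partB_word (hω : IsHomCocycle (2 * (m + 1)) ω) (Q : ℕ) (hQ : 0 < Q) (e : List Γ)
    (he : e.length = 2 * Q) :
    Lc ω e.prod (exE m (2 * Q) fun j => nn (vx e j)) =
      (m ! : S) * Lc ω e.prod (zp 1 (Ty.E :: List.replicate (Q - 1) (Ty.X 0)) e) := by
  obtain ⟨q, rfl⟩ : ∃ q, Q = q + 1 := ⟨Q - 1, by omega⟩
  obtain ⟨K, _, f, α, D, L, deg, hS⟩ := partB_super hω e.prod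
  set N : ℕ → K := fun j => f (nn (vx e j)) with hN
  have hanti : ∀ i j, N i * N j = - (N j * N i) := fun i j => hS.anti _ _
  have hsq0 : ∀ i, N i * N i = 0 := fun i => hS.sq _
  have hNdeg : ∀ i, N i ∈ deg 1 := fun i => hS.nn_deg _
  have hbdeg : ∀ j, partB_be N j ∈ deg 2 := fun j =>
    add_mem (hS.mul_deg 1 1 _ _ (hNdeg _) (hNdeg _)) (hS.mul_deg 1 1 _ _ (hNdeg _) (hNdeg _))
  have hleft : Lc ω e.prod (exE m (2 * (q + 1)) fun j => nn (vx e j)) =
      (m ! : S) * L (N 0 * N 1 * prodTo (partB_be N) (q + 1)) := by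
    rw [← hS.L_f, map_exE]
    have h1 : pg (fun j => f (nn (vx e j))) (2 * (q + 1)) =
        ∑ j ∈ Finset.range (q + 1), partB_be N j := by
      unfold pg
      rw [partB_sum_even]
      rfl
    unfold exE
    rw [h1]
    exact sq_pick L deg (2 * (m + 1)) hS.mul_deg hS.L_deg (partB_be N) hbdeg
      (partB_be_comm N hanti) (partB_be_sq N hanti hsq0) (q + 1) m 2 (N 0 * N 1)
      (hS.mul_deg 1 1 _ _ (hNdeg _) (hNdeg _)) (by ring)
  rw [hleft]
  congr 1
  rw [← hS.L_f]
  congr 1
  rw [partB_prodTo_succ, ← mul_assoc, partB_first N hanti hsq0]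
  rw [zp_eq _ _ (by rw [he]; simp), map_list_prod, List.map_map]
  have hlen : (Ty.E :: List.replicate (q + 1 - 1) (Ty.X 0)).length = q + 1 := by simp
  rw [hlen, List.range_succ_eq_map, List.map_cons, List.prod_cons, List.map_map]
  have h0 : (⇑f ∘ fun j => zz ((Ty.E :: List.replicate (q + 1 - 1) (Ty.X 0)).getD j Ty.E)
      (nn (vx e (2 * j))) (nn (vx e (2 * j + 1))) (nn (vx e (2 * j + 2)))) 0 = N 0 * N 1 := by
    rw [Function.comp_apply, partB_zz]
    rfl
  rw [h0]
  congr 2
  refine List.map_congr_left fun j hj => ?_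
  rw [List.mem_range] at hj
  rw [Function.comp_apply, Function.comp_apply, partB_zz]
  have h1 : (Ty.E :: List.replicate (q + 1 - 1) (Ty.X 0)).getD (j + 1) Ty.E = Ty.X 0 := by
    simp [List.getElem?_replicate, hj]
  rw [Nat.succ_eq_add_one, h1]
  simp only [zz, zero_smul, zero_add]
  rfl

/-- PROOF. `partB_word`, `bridge`, `wsum_pp` with `a = 1`, `evB`, `wsum_smul`, `wsum_congr`,
`Nat.descFactorial_eq_factorial_mul_choose`. -/
theorem partB (hω : IsHomCocycle (2 * (m + 1)) ω)
    (A B : Matrix (Fin n) (Fin n) (MonoidAlgebra S Γ)) (hAB : A * B = 1) (hBA : B * A = 1)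
    (Q : ℕ) (hQ : 0 < Q) :
    wsum B A Q (fun e => Lc ω e.prod (exE m (2 * Q) fun j => nn (vx e j))) =
      ((Q - 1).descFactorial m : S) * chern m A B ω := by
  have h1 : wsum B A Q (fun e => Lc ω e.prod (exE m (2 * Q) fun j => nn (vx e j))) =
      wsum B A Q (fun e => (m.factorial : S) *
        (LM ω (1 * pp ((Ty.E :: List.replicate (Q - 1) (Ty.X 0)).map yy) e))) := by
    refine wsum_congr B A Q fun e he => ?_
    have h2 : e.length = 2 * (Ty.E :: List.replicate (Q - 1) (Ty.X 0)).length := by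
      rw [he]
      simp only [List.length_cons, List.length_replicate]
      omega
    rw [partB_word hω Q hQ e he, one_mul, (bridge (ω := ω) _ e h2).1]
  have hlen : ((Ty.E :: List.replicate (Q - 1) (Ty.X 0)).map (yy (Γ := Γ) (S := S))).length = Q := by
    simp only [List.length_map, List.length_cons, List.length_replicate]
    omega
  have h3 := wsum_pp A B (LM ω) (fun s x => lin_smul _ s x) 1 ((Ty.E :: List.replicate (Q - 1) (Ty.X 0)).map (yy (Γ := Γ)))
  rw [hlen] at h3
  rw [h1, wsum_smul, h3, one_mul, List.map_map, List.map_cons, List.prod_cons,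
    List.map_replicate, List.prod_replicate]
  simp only [Function.comp_apply]
  rw [evB hω.toIsHomCochain A B hAB hBA Q hQ, Nat.descFactorial_eq_factorial_mul_choose]
  push_cast
  ring

end Pool.Agent.Lib.MP_8f66f0_al_ChernS
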