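import Mathlib
import Pool.Agent.Lib.MP_8f66f0_al_ChernS.PartA
import Pool.Agent.Lib.MP_8f66f0_al_ChernS.PartB

/-! # The sum of `F` over all words. -/

set_option autoImplicit false
set_option linter.unusedSectionVars false
set_option linter.unusedVariables false

namespace Pool.Agent.Lib.MP_8f66f0_al_ChernS

open Pool.Agent.Lib.MP_8f66f0_al_FinQ Pool.Agent.Lib.MP_8f66f0_al_Uni

variable {Γ : Type*} [Group Γ] {S : Type*} [CommRing S] {ω : Γ → List Γ → S} {n m : ℕ}

/-- PROOF. `FF = part B + part A' - part A`: `partB`, `partA`; the function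
`e ↦ Lc ω e.prod (nn (vx e 1) * hmt m Q (fun j => nn (vx e (j+1))))` is `G (e.rotate 1)`,
`G e = Lc ω e.prod (nn (vx e 0) * hmt m Q (fun j => nn (vx e j)))` (`vx_rotate_one`, `prod_rotate_one`, `Lc_trans`,
`trans_nn`, `map_hmt`), so its sum is `wsum A B Q G = 0` by `wsum_rotate_one` and `partA` with `A` and `B`
exchanged. -/
theorem wsum_FF (hω : IsHomCocycle (2 * (m + 1)) ω) (hreg : Reg S m)
    (A B : Matrix (Fin n) (Fin n) (MonoidAlgebra S Γ)) (hAB : A * B = 1) (hBA : B * A = 1)
    (Q : ℕ) (hQ : 0 < Q) :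
    wsum B A Q (FF ω m Q) = ((Q - 1).descFactorial m : S) * chern m A B ω := by
  have h1 : wsum B A Q (FF ω m Q) =
      wsum B A Q (fun e => Lc ω e.prod (exE m (2 * Q) fun j => nn (vx e j))) +
      (wsum B A Q (fun e => Lc ω e.prod (nn (vx e 1) * hmt m Q fun j => nn (vx e (j + 1)))) +
      (-1) * wsum B A Q (fun e => Lc ω e.prod (nn (vx e 0) * hmt m Q fun j => nn (vx e j)))) := by
    rw [← wsum_smul, ← wsum_add, ← wsum_add]
    congr 1
    funext e
    unfold FF exF
    rw [map_sub, map_add]
    ring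
  have h2 : wsum B A Q (fun e => Lc ω e.prod (nn (vx e 1) * hmt m Q fun j => nn (vx e (j + 1)))) =
      0 := by
    rw [← partA (ω := ω) hω hreg B A hBA hAB Q hQ, ← wsum_rotate_one B A Q
      (fun e => Lc ω e.prod (nn (vx e 0) * hmt m Q fun j => nn (vx e j)))]
    refine wsum_congr B A Q fun e he => ?_
    cases e with
    | nil =>
      simp only [List.length_nil] at he
      omega
    | cons a e =>
      rw [prod_rotate_one]
      have h3 : (nn (vx (a :: e) 1) : MonoidAlgebra S (FreeMonoid Γ)) * (hmt m Q fun j => nn (vx (a :: e) (j + 1))) =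
          trans a (nn (vx ((a :: e).rotate 1) 0) *
            hmt m Q fun j => nn (vx ((a :: e).rotate 1) j)) := by
        rw [map_mul, map_hmt, trans_nn]
        congr 2
        · rw [vx_rotate_one, mul_inv_cancel_left]
        · funext j
          rw [trans_nn, vx_rotate_one, mul_inv_cancel_left]
      have h4 := Lc_trans hω.toIsHomCochain a (a⁻¹ * (a :: e).prod * a)
        (nn (vx ((a :: e).rotate 1) 0) * hmt m Q fun j => nn (vx ((a :: e).rotate 1) j))
      rw [← h4, ← h3]
      congr 2
      group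
  rw [h1, h2, partA hω hreg A B hAB hBA Q hQ, partB hω A B hAB hBA Q hQ]
  ring

end Pool.Agent.Lib.MP_8f66f0_al_ChernS
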