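import Mathlib
import Pool.Agent.Lib.MP_8f66f0_al_ChernS.Defs2

/-! # Existence of phases. -/

set_option autoImplicit false
set_option linter.unusedSectionVars false
set_option linter.unusedVariables false

namespace Pool.Agent.Lib.MP_8f66f0_al_ChernS

open Pool.Agent.Lib.MP_8f66f0_al_FinQ Pool.Agent.Lib.MP_8f66f0_al_Uni

lemma phaseGen_iter {W : Type*} {σ : W → W} {Y : W → Prop} (hY : ∀ x, Y x → Y (σ x)) (i : ℕ)
    (x : W) (hx : Y x) : Y (σ^[i] x) := by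
  induction i with
  | zero => exact hx
  | succ i ih =>
    rw [Function.iterate_succ_apply']
    exact hY _ ih

lemma phaseGen_mul {W : Type*} {σ : W → W} {Q : ℕ} {x : W} (h : σ^[Q] x = x) (m : ℕ) :
    σ^[Q * m] x = x := by
  induction m with
  | zero => rfl
  | succ m ih => rw [Nat.mul_succ, Function.iterate_add_apply, h, ih]

/-- the setoid of the orbits -/
def phaseGen_setoid {W : Type*} (σ : W → W) (Y : W → Prop) (Q : ℕ) (hQ : 0 < Q)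
    (hper : ∀ x, Y x → σ^[Q] x = x) : Setoid {x // Y x} where
  r x y := ∃ i, σ^[i] x.1 = y.1
  iseqv := by
    refine ⟨fun x => ⟨0, rfl⟩, ?_, ?_⟩
    · rintro x y ⟨i, hi⟩
      obtain ⟨k, hk⟩ : ∃ k, k + i = Q * i :=
        ⟨Q * i - i, Nat.sub_add_cancel (Nat.le_mul_of_pos_left _ hQ)⟩
      refine ⟨k, ?_⟩
      rw [← hi, ← Function.iterate_add_apply, hk]
      exact phaseGen_mul (hper x.1 x.2) i
    · rintro x y z ⟨i, hi⟩ ⟨k, hk⟩
      exact ⟨k + i, by rw [Function.iterate_add_apply, hi, hk]⟩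

/-- PROOF. As `exists_phase` in `MP_8f66f0_al_Uni/Phase.lean` (copy and adapt). On `Y` the relation
`x ~ y ↔ ∃ i, σ^[i] x = y` is an equivalence relation (`σ^[Q] x = x` for `x ∈ Y`, so `σ` is
invertible on `Y`). Choose a representative `x0` of the class of `x ∈ Y` and `J x` with
`σ^[J x] x0 = x`; `θ x = (J x) % q` for `x ∈ Y`, `θ x = 0` otherwise. `σ^[J x + 1] x0 = σ x = σ^[J (σ x)] x0`;
apply suitable powers of `σ` (with `σ^[Q] = id` on `Y`) to get `σ^[i] x0 = x0` with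
`i ≡ J (σ x) - J x - 1` modulo `Q`, hence modulo `q` (`q ∣ Q`); by `hstab` `q ∣ i`. -/
theorem exists_ph {W : Type*} (σ : W → W) (Y : W → Prop) (Q q : ℕ) (hQ : 0 < Q) (hq : 0 < q)
    (hqQ : q ∣ Q) (hY : ∀ x, Y x → Y (σ x)) (hper : ∀ x, Y x → σ^[Q] x = x)
    (hstab : ∀ x, Y x → ∀ i, σ^[i] x = x → q ∣ i) :
    ∃ θ : W → ℤ, IsPh σ Y q θ := by
  classical
  have hq0 : (q : ℤ) ≠ 0 := by exact_mod_cast hq.ne'
  let s := phaseGen_setoid σ Y Q hQ hper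
  have hr : ∀ x : {x // Y x}, ∃ j : ℕ, σ^[j] (Quotient.out (Quotient.mk s x)).1 = x.1 := fun x =>
    Quotient.mk_out (s := s) x
  choose J hJ using hr
  refine ⟨fun x => if h : Y x then (J ⟨x, h⟩ : ℤ) % q else 0, ?_, ?_, ?_⟩
  · intro x
    by_cases h : Y x
    · simp only [dif_pos h]
      exact Int.emod_nonneg _ hq0
    · simp only [dif_neg h]
      exact le_refl _
  · intro x
    by_cases h : Y x
    · simp only [dif_pos h]
      exact Int.emod_lt_of_pos _ (by exact_mod_cast hq)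
    · simp only [dif_neg h]
      exact_mod_cast hq
  · intro x hx
    have hsx : Y (σ x) := hY x hx
    simp only [dif_pos hx, dif_pos hsx]
    have h1 := hJ ⟨x, hx⟩
    have h2 := hJ ⟨σ x, hsx⟩
    have he : Quotient.mk s ⟨σ x, hsx⟩ = Quotient.mk s ⟨x, hx⟩ :=
      (Quotient.sound (s := s) (show s.r ⟨x, hx⟩ ⟨σ x, hsx⟩ from ⟨1, rfl⟩)).symm
    rw [he] at h2
    set r := Quotient.out (Quotient.mk s ⟨x, hx⟩) with hrdef
    simp only at h1 h2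
    obtain ⟨k, hk⟩ : ∃ k, J ⟨x, hx⟩ + 1 + k = Q * (J ⟨x, hx⟩ + 1) :=
      ⟨Q * (J ⟨x, hx⟩ + 1) - (J ⟨x, hx⟩ + 1),
        Nat.add_sub_cancel' (Nat.le_mul_of_pos_left _ hQ)⟩
    have h3 : σ^[J ⟨x, hx⟩ + 1] r.1 = σ x := by
      rw [Function.iterate_succ_apply', h1]
    have h4 : σ^[k + J ⟨σ x, hsx⟩] r.1 = r.1 := by
      rw [Function.iterate_add_apply, h2, ← h3, ← Function.iterate_add_apply,
        add_comm k, hk]
      exact phaseGen_mul (hper r.1 r.2) _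
    have h5 : q ∣ k + J ⟨σ x, hsx⟩ := hstab r.1 r.2 _ h4
    have h7 : (q : ℤ) ∣ (k : ℤ) + J ⟨σ x, hsx⟩ := by exact_mod_cast h5
    have h8 : (q : ℤ) ∣ (Q : ℤ) * ((J ⟨x, hx⟩ : ℤ) + 1) := by
      refine Dvd.dvd.mul_right ?_ _
      exact_mod_cast hqQ
    have h9 : (J ⟨x, hx⟩ : ℤ) + 1 + k = Q * ((J ⟨x, hx⟩ : ℤ) + 1) := by exact_mod_cast hk
    have h10 : (q : ℤ) ∣ (J ⟨σ x, hsx⟩ : ℤ) - J ⟨x, hx⟩ - 1 := by
      have h11 : (J ⟨σ x, hsx⟩ : ℤ) - J ⟨x, hx⟩ - 1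
          = ((k : ℤ) + J ⟨σ x, hsx⟩) - Q * ((J ⟨x, hx⟩ : ℤ) + 1) := by linarith
      rw [h11]
      exact dvd_sub h7 h8
    have h12 : ((J ⟨σ x, hsx⟩ : ℤ) % q) - ((J ⟨x, hx⟩ : ℤ) % q) - 1
        = ((J ⟨σ x, hsx⟩ : ℤ) - J ⟨x, hx⟩ - 1)
          - q * ((J ⟨σ x, hsx⟩ : ℤ) / q) + q * ((J ⟨x, hx⟩ : ℤ) / q) := by
      rw [Int.emod_def, Int.emod_def]
      ring
    rw [h12]
    exact dvd_add (dvd_sub h10 (dvd_mul_right _ _)) (dvd_mul_right _ _)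

end Pool.Agent.Lib.MP_8f66f0_al_ChernS
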