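import Mathlib
import Pool.Agent.Lib.MP_8f66f0_al_ChernS.Core
import Pool.Agent.Lib.MP_8f66f0_al_ChernS.Eval
import Pool.Agent.Lib.MP_8f66f0_al_ChernS.PWords
import Pool.Agent.Lib.MP_8f66f0_al_ChernS.PhaseGen
import Pool.Agent.Lib.MP_8f66f0_al_Uni.Phase

/-! # Divisibility at a class with few roots. -/

set_option autoImplicit false
set_option linter.unusedSectionVars false
set_option linter.unusedVariables false

namespace Pool.Agent.Lib.MP_8f66f0_al_ChernS

open Pool.Agent.Lib.MP_8f66f0_al_FinQ Pool.Agent.Lib.MP_8f66f0_al_Uni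

variable {Γ : Type*} [Group Γ] {S : Type*} [CommRing S] {ω : Γ → List Γ → S} {n m : ℕ}

/-- If `x` has length `p^(K+j)` and is invariant under rotation by `i` with `¬ p^K ∣ i` then `x` is
the `p^(K+j-l)`-fold repetition of its first `p^l` letters for some `l < K`. -/
theorem stab_pow {p : ℕ} (hp : p.Prime) (j K : ℕ)
    (x : List Γ) (hx : x.length = p ^ (K + j)) (i : ℕ)
    (hi : x.rotate i = x) (hpi : ¬ p ^ K ∣ i) :
    ∃ l, l < K ∧ (x.take (p ^ l)).length = p ^ l ∧
      x.prod = (x.take (p ^ l)).prod ^ (p ^ (K + j - l)) := by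
  rcases (Nat.gcd_le_right i (pow_pos hp.pos (K + j))).lt_or_eq with hlt | heq
  · obtain ⟨l, hl, hlg⟩ := (Nat.dvd_prime_pow hp).1 (Nat.gcd_dvd_right i (p ^ (K + j)))
    by_cases hlK : K ≤ l
    · exact absurd ((pow_dvd_pow p hlK).trans (hlg ▸ Nat.gcd_dvd_left i (p ^ (K + j)))) hpi
    · push Not at hlK
      obtain ⟨m', -, hm⟩ := Nat.exists_mul_mod_eq_gcd hlt
      have h1 : x.rotate (p ^ l) = x := by
        rw [← hlg, ← hm, ← hx, List.rotate_mod]
        exact phase_rotate_mul x i hi m'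
      have h2 : x.length = p ^ (K + j - l) * p ^ l := by
        rw [hx, ← pow_add]
        congr 1
        omega
      have h3 := phase_repeat x (g := p ^ l) (m := p ^ (K + j - l)) (by
        rw [hx]
        exact Nat.pow_le_pow_right hp.pos hl) h2 h1
      refine ⟨l, hlK, ?_, ?_⟩
      · rw [List.length_take, hx, min_eq_left (Nat.pow_le_pow_right hp.pos hl)]
      · conv_lhs => rw [h3]
        exact phase_prod_flatten _ _
  · have h1 : p ^ (K + j) ∣ i := heq ▸ Nat.gcd_dvd_left i (p ^ (K + j))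
    exact absurd ((pow_dvd_pow p (Nat.le_add_right K j)).trans h1) hpi

theorem classQ_iter (k : ℕ) (x : List Γ) (i : ℕ) :
    (fun x : List Γ => x.rotate k)^[i] x = x.rotate (k * i) := by
  induction i with
  | zero => rw [Function.iterate_zero, id, mul_zero, List.rotate_zero]
  | succ i ih => rw [Function.iterate_succ_apply', ih, List.rotate_rotate, Nat.mul_succ]

theorem classQ_Lc_zero (c : Γ) (h : ∀ u, ω c u = 0) (z : MonoidAlgebra S (FreeMonoid Γ)) :
    Lc ω c z = 0 := by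
  unfold Lc
  rw [lin_apply]
  unfold Finsupp.sum
  refine Finset.sum_eq_zero fun w _ => ?_
  show z.coeff w * ω c (FreeMonoid.toList w) = 0
  rw [h, mul_zero]

theorem classQ_rotate_iff (k : ℕ) (x : List Γ) (i : ℕ) :
    (x.rotate k).rotate i = x.rotate k ↔ x.rotate i = x := by
  rw [List.rotate_rotate, add_comm, ← List.rotate_rotate]
  exact ⟨fun h => List.rotate_injective k h, fun h => by rw [h]⟩

/-- The divisibility at a class with few roots: `Q = p^(K+j)`. -/
theorem classQ_dvd (hω : IsHomCocycle (2 * (m + 1)) ω) (hreg : Reg S m)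
    (A B : Matrix (Fin n) (Fin n) (MonoidAlgebra S Γ)) (hAB : A * B = 1) (hBA : B * A = 1)
    (T : Set Γ) (hB : ∀ i j g, (B i j).coeff g ≠ 0 → g ∈ T)
    (hA : ∀ i j g, (A i j).coeff g ≠ 0 → g ∈ T)
    {p : ℕ} (hp : p.Prime) (K j : ℕ) (hK : 0 < K) (c0 : Γ)
    (hc : ∀ l, l < K → ∀ y : List Γ, y.length = p ^ l →
      (∀ g ∈ y, ∃ a ∈ T, ∃ b ∈ T, g = a * b) → ¬ IsConj c0 (y.prod ^ p ^ (K + j - l)))
    (hsupp : ∀ c u, ¬ IsConj c0 c → ω c u = 0) :
    ((p ^ (K + j) : ℕ) : S) ∣
      ((p ^ j : ℕ) : S) * (((p ^ (K + j) - 1).descFactorial m : S) * chern m A B ω) := by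
  have hQpos : 0 < p ^ (K + j) := pow_pos hp.pos _
  have hdiv : p ^ K ∣ p ^ (K + j) := pow_dvd_pow p (Nat.le_add_right K j)
  obtain ⟨θ, hθ⟩ := exists_ph (fun x : List Γ => x.rotate 1)
    (fun x => x.length = p ^ (K + j) ∧ (IsConj c0 x.prod ∧ ∀ i, x.rotate i = x → p ^ K ∣ i))
    (p ^ (K + j)) (p ^ K) hQpos (pow_pos hp.pos _) hdiv
    (fun x hx => ⟨by rw [List.length_rotate]; exact hx.1,
      hx.2.1.trans (phase_isConj_rotate x 1), fun i hi => hx.2.2 i
        ((classQ_rotate_iff 1 x i).1 hi)⟩)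
    (fun x hx => by
      rw [classQ_iter, one_mul, ← hx.1, List.rotate_length])
    (fun x hx i hi => by
      rw [classQ_iter, one_mul] at hi
      exact hx.2.2 i hi)
  obtain ⟨Θ, hΘ⟩ := exists_ph (fun x : List Γ => x.rotate 2)
    (fun e => e.length = 2 * p ^ (K + j) ∧
      (IsConj c0 e.prod ∧ ∀ i, e.rotate (2 * i) = e → p ^ K ∣ i))
    (p ^ (K + j)) (p ^ K) hQpos (pow_pos hp.pos _) hdiv
    (fun x hx => ⟨by rw [List.length_rotate]; exact hx.1,
      hx.2.1.trans (phase_isConj_rotate x 2), fun i hi => hx.2.2 i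
        ((classQ_rotate_iff 2 x (2 * i)).1 hi)⟩)
    (fun x hx => by
      rw [classQ_iter, ← hx.1, List.rotate_length])
    (fun x hx i hi => by
      rw [classQ_iter] at hi
      exact hx.2.2 i hi)
  -- words with letters in `T`
  have hgood : ∀ x : List Γ, x.length = p ^ (K + j) → (∀ g ∈ x, ∃ a ∈ T, ∃ b ∈ T, g = a * b) →
      IsConj c0 x.prod → ∀ i, x.rotate i = x → p ^ K ∣ i := by
    intro x hx hxT hxc i hi
    by_contra hpi
    obtain ⟨l, hl, hl1, hl2⟩ := stab_pow hp j K x hx i hi hpi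
    refine hc l hl _ hl1 (fun g hg => hxT g (List.mem_of_mem_take hg)) ?_
    rw [← hl2]
    exact hxc
  have hcore := core A B hAB hBA (p ^ (K + j)) (p ^ K) (p ^ j) (pow_pos hp.pos _)
    (pow_pos hp.pos _) (pow_add p K j) T hB hA (eps ω m) (FF ω m (p ^ (K + j)))
    (fun x hx => by
      have := eps_sum hω m x
      rwa [hx] at this)
    (fun e he => FF_diff hω m _ e he)
    (fun x => IsConj c0 x.prod ∧ ∀ i, x.rotate i = x → p ^ K ∣ i)
    (fun e => IsConj c0 e.prod ∧ ∀ i, e.rotate (2 * i) = e → p ^ K ∣ i) θ Θ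
    (fun x _ hx => ⟨hx.1.trans (phase_isConj_rotate x 1), fun i hi => hx.2 i
      ((classQ_rotate_iff 1 x i).1 hi)⟩)
    (fun e _ he => ⟨he.1.trans (phase_isConj_rotate e 2), fun i hi => he.2 i
      ((classQ_rotate_iff 2 e (2 * i)).1 hi)⟩)
    hθ hΘ
    (fun x hx hxT hX => by
      by_cases h : IsConj c0 x.prod
      · exact absurd ⟨h, hgood x hx hxT h⟩ hX
      · exact classQ_Lc_zero _ (fun u => hsupp _ u h) _)
    (fun e he heT hY => by
      by_cases h : IsConj c0 e.prod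
      · refine absurd ⟨h, fun i hi => ?_⟩ hY
        refine hgood (d0 e) (length_d0 _ e he) (core_mem_d0 _ e he heT)
          (by rw [prod_d0 _ e he]; exact h) i ?_
        rw [← d0_rotate _ e he i, hi]
      · exact classQ_Lc_zero _ (fun u => hsupp _ u h) _)
    (by
      rintro ⟨-, h⟩
      have h1 := h 1 (List.rotate_replicate _ _ _)
      rw [Nat.dvd_one] at h1
      exact absurd h1 (Nat.one_lt_pow hK.ne' hp.one_lt).ne')
    (by
      rintro e he heT ⟨h1, h2⟩
      rw [prod_d0 _ e he] at h1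
      refine ⟨h1, fun i hi => h2 i ?_⟩
      rw [← d0_rotate _ e he i, hi])
    (by
      rintro e he heT ⟨h1, h2⟩
      have he1 : (e.rotate 1).length = 2 * p ^ (K + j) := by rw [List.length_rotate, he]
      rw [prod_d0 _ _ he1] at h1
      refine ⟨h1.trans (phase_isConj_rotate e 1).symm, fun i hi => h2 i ?_⟩
      rw [← d0_rotate _ _ he1 i, (classQ_rotate_iff 1 e (2 * i)).2 hi])
  rw [wsum_FF hω hreg A B hAB hBA _ hQpos] at hcore
  exact hcore

end Pool.Agent.Lib.MP_8f66f0_al_ChernS
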