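import Mathlib
import Pool.Agent.Lib.MP_8f66f0_al_ChernS.Defs
import Pool.Agent.Lib.MP_8f66f0_al_Uni.WordSum

/-! # Cocycles with values in an abelian group. -/

set_option autoImplicit false
set_option linter.unusedSectionVars false
set_option linter.unusedVariables false

namespace Pool.Agent.Lib.MP_8f66f0_al_ChernS

open Pool.Agent.Lib.MP_8f66f0_al_FinQ Pool.Agent.Lib.MP_8f66f0_al_Uni

variable {Γ : Type*} [Group Γ]

/-- Homogeneous alternating cyclic cocycles with `r` arguments and values in the abelian group `M`: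
functions `ω c u` of an element `c` of the group and of a list `u` of `r` elements of the group
(zero on the lists of another length). -/
structure IsCyclicCocycle {M : Type*} [AddCommGroup M] (r : ℕ) (ω : Γ → List Γ → M) : Prop where
  len : ∀ (c : Γ) (u : List Γ), u.length ≠ r → ω c u = 0
  equivariant : ∀ (x c : Γ) (u : List Γ), ω (x * c * x⁻¹) (u.map (x * ·)) = ω c u
  periodic : ∀ (c : Γ) (u : List Γ) (a : Γ) (v : List Γ), ω c (u ++ c * a :: v) = ω c (u ++ a :: v)
  alternating : ∀ (c : Γ) (u : List Γ) (a b : Γ) (v : List Γ),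
    ω c (u ++ a :: b :: v) = - ω c (u ++ b :: a :: v)
  diag : ∀ (c : Γ) (u : List Γ) (a : Γ) (v : List Γ), ω c (u ++ a :: a :: v) = 0
  cocycle : ∀ (c : Γ) (u : List Γ),
    ∑ i ∈ Finset.range u.length, (-1 : ℤ) ^ i • ω c (u.eraseIdx i) = 0

/-- The pairing of the Chern character of the integral matrix `A` (with inverse `B`) with a cocycle
with values in `M`: the sum over all words `w = (h_0, g_0, ..., h_m, g_m)` and all indices of
`B_{i_0 j_0}(h_0) A_{j_0 i_1}(g_0) B_{i_1 j_1}(h_1) ... A_{j_m i_0}(g_m)` times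
`ω(h_0 g_0 ... h_m g_m; 1, h_0, h_0 g_0, ..., h_0 g_0 ... h_m)`. -/
noncomputable def pairing {M : Type*} [AddCommGroup M] {n : ℕ} (m : ℕ)
    (A B : Matrix (Fin n) (Fin n) (MonoidAlgebra ℤ Γ)) (ω : Γ → List Γ → M) : M :=
  (Matrix.trace ((letM B * letM A) ^ (m + 1))).coeff.sum fun w a =>
    a • ω w.toList.prod (verts w.toList)

lemma pairing_map {M M' : Type*} [AddCommGroup M] [AddCommGroup M'] (f : M →+ M') {n : ℕ} (m : ℕ)
    (A B : Matrix (Fin n) (Fin n) (MonoidAlgebra ℤ Γ)) (ω : Γ → List Γ → M) :
    pairing m A B (fun c u => f (ω c u)) = f (pairing m A B ω) := by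
  unfold pairing
  rw [Finsupp.sum, Finsupp.sum, map_sum]
  exact Finset.sum_congr rfl fun w _ => (map_zsmul f _ _).symm

lemma IsCyclicCocycle.map {M M' : Type*} [AddCommGroup M] [AddCommGroup M'] (f : M →+ M') {r : ℕ}
    {ω : Γ → List Γ → M} (hω : IsCyclicCocycle r ω) :
    IsCyclicCocycle r (fun c u => f (ω c u)) where
  len c u hu := by rw [hω.len c u hu, map_zero]
  equivariant x c u := by rw [hω.equivariant]
  periodic c u a v := by rw [hω.periodic]
  alternating c u a b v := by rw [hω.alternating, map_neg]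
  diag c u a v := by rw [hω.diag, map_zero]
  cocycle c u := by
    rw [← map_zero f, ← hω.cocycle c u, map_sum]
    exact Finset.sum_congr rfl fun i _ => (map_zsmul f _ _).symm

lemma IsCyclicCocycle.hom {S : Type*} [CommRing S] {r : ℕ} {ω : Γ → List Γ → S}
    (hω : IsCyclicCocycle r ω) : IsHomCocycle r ω where
  len := hω.len
  equivariant := hω.equivariant
  periodic := hω.periodic
  alternating := hω.alternating
  diag := hω.diag
  cocycle c u := by
    rw [← hω.cocycle c u]
    refine Finset.sum_congr rfl fun i _ => ?_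
    rw [zsmul_eq_mul]
    push_cast
    rfl

/-- Change of coefficients. -/
lemma chern_base {S : Type*} [CommRing S] {n : ℕ} (m : ℕ)
    (A B : Matrix (Fin n) (Fin n) (MonoidAlgebra ℤ Γ)) (ω : Γ → List Γ → S) :
    chern m (baseMat S A) (baseMat S B) ω = pairing m A B ω := by
  have h1 : ∀ x : MonoidAlgebra ℤ Γ, letter S Γ (MonoidAlgebra.mapRingHom Γ (Int.castRingHom S) x)
      = MonoidAlgebra.mapRingHom (FreeMonoid Γ) (Int.castRingHom S) (letter ℤ Γ x) := by
    intro x
    induction x using MonoidAlgebra.induction_linear with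
    | zero => simp only [map_zero]
    | add y z hy hz => simp only [map_add, hy, hz]
    | single m r =>
      rw [MonoidAlgebra.mapRingHom_single, letter_single, letter_single,
        MonoidAlgebra.mapRingHom_single]
  have h2 : ∀ C : Matrix (Fin n) (Fin n) (MonoidAlgebra ℤ Γ), letM (baseMat S C) =
      (MonoidAlgebra.mapRingHom (FreeMonoid Γ) (Int.castRingHom S)).mapMatrix (letM C) := by
    intro C
    refine Matrix.ext fun i j => ?_
    exact h1 (C i j)
  have h3 : ∀ (F : List Γ → S) (x : MonoidAlgebra ℤ (FreeMonoid Γ)),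
      lin (fun w : FreeMonoid Γ => F w.toList)
        (MonoidAlgebra.mapRingHom (FreeMonoid Γ) (Int.castRingHom S) x) =
      x.coeff.sum fun w a => a • F w.toList := by
    intro F x
    induction x using MonoidAlgebra.induction_linear with
    | zero => simp
    | add y z hy hz =>
      rw [map_add, map_add, hy, hz, MonoidAlgebra.coeff_add]
      exact (Finsupp.sum_add_index' (h := fun (w : FreeMonoid Γ) (a : ℤ) => a • F w.toList)
        (fun _ => zero_smul ℤ _) (fun _ _ _ => add_smul _ _ _)).symm
    | single m r =>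
      rw [MonoidAlgebra.mapRingHom_single, lin_single, MonoidAlgebra.coeff_single]
      have h5 := Finsupp.sum_single_index (a := m) (b := r)
        (h := fun (w : FreeMonoid Γ) (a : ℤ) => a • F w.toList) (zero_smul ℤ _)
      rw [h5, zsmul_eq_mul]
      rfl
  unfold chern wsum pairing
  rw [h2, h2, ← map_mul, ← map_pow]
  have h4 : Matrix.trace ((MonoidAlgebra.mapRingHom (FreeMonoid Γ)
      (Int.castRingHom S)).mapMatrix ((letM B * letM A) ^ (m + 1))) =
      MonoidAlgebra.mapRingHom (FreeMonoid Γ) (Int.castRingHom S)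
        (Matrix.trace ((letM B * letM A) ^ (m + 1))) := by
    rw [Matrix.trace, Matrix.trace, map_sum]
    rfl
  rw [h4]
  exact h3 (fun w => ω w.prod (verts w)) _

end Pool.Agent.Lib.MP_8f66f0_al_ChernS
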