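import Mathlib
import Pool.Agent.Lib.MP_8f66f0_al_ChernS.ClassQ
import Pool.Agent.Lib.MP_8f66f0_al_ChernS.Pairing

/-! # Integral cocycles at a class with few roots. -/

set_option autoImplicit false
set_option linter.unusedSectionVars false
set_option linter.unusedVariables false

namespace Pool.Agent.Lib.MP_8f66f0_al_ChernS

open Pool.Agent.Lib.MP_8f66f0_al_FinQ Pool.Agent.Lib.MP_8f66f0_al_Uni

variable {Γ : Type*} [Group Γ] {n m : ℕ}

theorem intCls_desc (m : ℕ) : (descPochhammer ℤ m).eval (-1) = (-1) ^ m * (m.factorial : ℤ) := by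
  induction m with
  | zero => simp
  | succ m ih =>
    rw [descPochhammer_succ_eval, ih, Nat.factorial_succ]
    push_cast
    ring

theorem intCls_descFactorial (Q m : ℕ) (hQ : 0 < Q) :
    (Q : ℤ) ∣ ((Q - 1).descFactorial m : ℤ) - (-1) ^ m * (m.factorial : ℤ) := by
  have h1 := Polynomial.sub_dvd_eval_sub (((Q - 1 : ℕ) : ℤ)) (-1) (descPochhammer ℤ m)
  rw [descPochhammer_eval_eq_descFactorial, intCls_desc] at h1
  have h2 : (((Q - 1 : ℕ) : ℤ)) - (-1) = Q := by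
    rw [Nat.cast_sub hQ]
    push_cast
    ring
  rwa [h2] at h1

theorem intCls_zero {p : ℕ} (hp : p.Prime) (z : ℤ) (h : ∀ K : ℕ, 0 < K → ((p ^ K : ℕ) : ℤ) ∣ z) :
    z = 0 := by
  apply Int.eq_zero_of_abs_lt_dvd (h (z.natAbs + 1) (by omega))
  rw [Int.abs_eq_natAbs]
  have h1 : z.natAbs < p ^ z.natAbs := Nat.lt_pow_self hp.one_lt
  have h2 : p ^ z.natAbs ≤ p ^ (z.natAbs + 1) := Nat.pow_le_pow_right hp.pos (by omega)
  exact_mod_cast lt_of_lt_of_le h1 h2

/-- The lists of a given length with entries in a finite set. -/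
lemma finite_lists {α : Type*} (T : Set α) (hT : T.Finite) : ∀ N : ℕ,
    {y : List α | y.length = N ∧ ∀ g ∈ y, g ∈ T}.Finite := by
  intro N
  induction N with
  | zero =>
    refine (Set.finite_singleton ([] : List α)).subset ?_
    rintro y ⟨hy, -⟩
    exact List.length_eq_zero_iff.1 hy
  | succ N ih =>
    refine (Set.Finite.image2 (fun a y => a :: y) hT ih).subset ?_
    rintro y ⟨hy, hyT⟩
    match y, hy with
    | a :: y, hy =>
      exact ⟨a, hyT a (by simp), y, ⟨by simpa using hy, fun g hg => hyT g (by simp [hg])⟩, rfl⟩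

/-- The finite sets `{i | c0 ~ v^(p^i)}` for the products `v` of few letters are bounded. -/
lemma intCls_bound (T : Set Γ) (hT : T.Finite) {p : ℕ} (c0 : Γ)
    (hc : ∀ v : Γ, {i : ℕ | IsConj c0 (v ^ p ^ i)}.Finite) (K : ℕ) :
    ∃ J : ℕ, ∀ l, l < K → ∀ y : List Γ, y.length = p ^ l →
      (∀ g ∈ y, ∃ a ∈ T, ∃ b ∈ T, g = a * b) → ∀ i, J ≤ i → ¬ IsConj c0 (y.prod ^ p ^ i) := by
  have hTT : {g : Γ | ∃ a ∈ T, ∃ b ∈ T, g = a * b}.Finite := by
    refine (Set.Finite.image2 (fun a b => a * b) hT hT).subset ?_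
    rintro g ⟨a, ha, b, hb, rfl⟩
    exact ⟨a, ha, b, hb, rfl⟩
  have hU : (⋃ l ∈ Finset.range K, {y : List Γ | y.length = p ^ l ∧
      ∀ g ∈ y, g ∈ {g : Γ | ∃ a ∈ T, ∃ b ∈ T, g = a * b}}).Finite :=
    Set.Finite.biUnion (Finset.finite_toSet _) fun l _ => finite_lists _ hTT (p ^ l)
  have hI : (⋃ y ∈ hU.toFinset, {i : ℕ | IsConj c0 (y.prod ^ p ^ i)}).Finite :=
    Set.Finite.biUnion (Finset.finite_toSet _) fun y _ => hc y.prod
  obtain ⟨J, hJ⟩ := hI.bddAbove
  refine ⟨J + 1, fun l hl y hy hyT i hi hconj => ?_⟩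
  have h1 : i ∈ (⋃ y ∈ hU.toFinset, {i : ℕ | IsConj c0 (y.prod ^ p ^ i)}) := by
    simp only [Set.mem_iUnion]
    refine ⟨y, ?_, hconj⟩
    rw [Set.Finite.mem_toFinset]
    simp only [Set.mem_iUnion]
    exact ⟨l, Finset.mem_range.2 hl, hy, hyT⟩
  have h2 := hJ h1
  omega

/-- Integral cocycles at a class which is a `p^i`-th power of a given element for finitely many `i`
only. -/
theorem int_cls {ω : Γ → List Γ → ℤ} (hω : IsCyclicCocycle (2 * (m + 1)) ω)
    (A B : Matrix (Fin n) (Fin n) (MonoidAlgebra ℤ Γ)) (hAB : A * B = 1) (hBA : B * A = 1)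
    (T : Set Γ) (hT : T.Finite) (hB : ∀ i j g, (B i j).coeff g ≠ 0 → g ∈ T)
    (hA : ∀ i j g, (A i j).coeff g ≠ 0 → g ∈ T)
    {p : ℕ} (hp : p.Prime) (c0 : Γ) (hc : ∀ v : Γ, {i : ℕ | IsConj c0 (v ^ p ^ i)}.Finite)
    (hsupp : ∀ c u, ¬ IsConj c0 c → ω c u = 0) : chern m A B ω = 0 := by
  have key : ∀ K : ℕ, 0 < K → ((p ^ K : ℕ) : ℤ) ∣ (m.factorial : ℤ) * chern m A B ω := by
    intro K hK
    obtain ⟨j, hj⟩ := intCls_bound T hT c0 hc K
    have h0 := classQ_dvd hω.hom (reg_int m) A B hAB hBA T hB hA hp K j hK c0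
      (fun l hl y hy hyT => hj l hl y hy hyT _ (by omega)) hsupp
    have h1 : ((p ^ K : ℕ) : ℤ) ∣
        ((p ^ (K + j) - 1).descFactorial m : ℤ) * chern m A B ω := by
      have h2 : ((p ^ (K + j) : ℕ) : ℤ) = ((p ^ j : ℕ) : ℤ) * ((p ^ K : ℕ) : ℤ) := by
        rw [pow_add]
        push_cast
        ring
      rw [h2] at h0
      exact Int.dvd_of_mul_dvd_mul_left (by exact_mod_cast (pow_pos hp.pos j).ne') h0
    have h3 : ((p ^ K : ℕ) : ℤ) ∣
        ((p ^ (K + j) - 1).descFactorial m : ℤ) - (-1) ^ m * (m.factorial : ℤ) := by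
      refine dvd_trans ?_ (intCls_descFactorial (p ^ (K + j)) m (pow_pos hp.pos _))
      exact_mod_cast pow_dvd_pow p (Nat.le_add_right K j)
    have h4 : ((p ^ K : ℕ) : ℤ) ∣ (-1) ^ m * ((m.factorial : ℤ) * chern m A B ω) := by
      have h5 := dvd_sub h1 (h3.mul_right (chern m A B ω))
      have h6 : ((p ^ (K + j) - 1).descFactorial m : ℤ) * chern m A B ω -
          (((p ^ (K + j) - 1).descFactorial m : ℤ) - (-1) ^ m * (m.factorial : ℤ)) *
            chern m A B ω = (-1) ^ m * ((m.factorial : ℤ) * chern m A B ω) := by ring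
      rwa [h6] at h5
    rcases neg_one_pow_eq_or ℤ m with h | h
    · rwa [h, one_mul] at h4
    · rw [h, neg_one_mul] at h4
      exact (dvd_neg).1 h4
  have h1 := intCls_zero hp _ key
  rcases mul_eq_zero.1 h1 with h | h
  · exact absurd (by exact_mod_cast h) (Nat.factorial_ne_zero m)
  · exact h

end Pool.Agent.Lib.MP_8f66f0_al_ChernS
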