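import Mathlib
import Pool.Agent.Lib.MP_8f66f0_al_ChernS.Defs
import Pool.Agent.Lib.MP_8f66f0_al_Uni.WordSum

/-! # Restriction to a subgroup and to the conjugacy classes. -/

set_option autoImplicit false
set_option linter.unusedSectionVars false
set_option linter.unusedVariables false

namespace Pool.Agent.Lib.MP_8f66f0_al_ChernS

open Pool.Agent.Lib.MP_8f66f0_al_FinQ Pool.Agent.Lib.MP_8f66f0_al_Uni

open Pool.Agent.Lib.MP_8f66f0_al_Dennis

variable {Γ : Type*} [Group Γ] {S : Type*} [CommRing S] {ω : Γ → List Γ → S} {n m : ℕ}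

/-- The restriction of a cochain to a subgroup. -/
def resH (H : Subgroup Γ) (ω : Γ → List Γ → S) : H → List H → S :=
  fun c u => ω c (u.map Subtype.val)

lemma split_map_eraseIdx {α β : Type*} (f : α → β) : ∀ (u : List α) (i : ℕ),
    (u.eraseIdx i).map f = (u.map f).eraseIdx i
  | [], _ => rfl
  | _ :: _, 0 => rfl
  | a :: u, i + 1 => by
    rw [List.eraseIdx_cons_succ, List.map_cons, List.map_cons, List.eraseIdx_cons_succ,
      split_map_eraseIdx f u i]

theorem resH_cocycle {r : ℕ} (hω : IsHomCocycle r ω) (H : Subgroup Γ) :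
    IsHomCocycle r (resH H ω) where
  len c u hu := hω.len _ _ (by rwa [List.length_map])
  equivariant x c u := by
    have h1 : (u.map (x * ·)).map Subtype.val = (u.map Subtype.val).map ((x : Γ) * ·) := by
      rw [List.map_map, List.map_map]
      rfl
    unfold resH
    rw [h1]
    exact hω.equivariant (x : Γ) (c : Γ) (u.map Subtype.val)
  periodic c u a v := by
    unfold resH
    rw [List.map_append, List.map_cons, List.map_append, List.map_cons]
    exact hω.periodic (c : Γ) (u.map Subtype.val) (a : Γ) (v.map Subtype.val)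
  alternating c u a b v := by
    unfold resH
    rw [List.map_append, List.map_cons, List.map_cons, List.map_append, List.map_cons,
      List.map_cons]
    exact hω.alternating (c : Γ) (u.map Subtype.val) (a : Γ) (b : Γ) (v.map Subtype.val)
  diag c u a v := by
    unfold resH
    rw [List.map_append, List.map_cons, List.map_cons]
    exact hω.diag (c : Γ) (u.map Subtype.val) (a : Γ) (v.map Subtype.val)
  cocycle c u := by
    have h := hω.cocycle (c : Γ) (u.map Subtype.val)
    rw [List.length_map] at h
    rw [← h]
    refine Finset.sum_congr rfl fun i _ => ?_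
    unfold resH
    rw [split_map_eraseIdx]

lemma split_exists_res (H : Subgroup Γ) (x : MonoidAlgebra S Γ)
    (hx : ∀ g ∈ x.coeff.support, g ∈ H) :
    ∃ y : MonoidAlgebra S H, MonoidAlgebra.mapDomainRingHom S H.subtype y = x := by
  refine ⟨MonoidAlgebra.ofCoeff (x.coeff.comapDomain Subtype.val Subtype.val_injective.injOn), ?_⟩
  rw [MonoidAlgebra.mapDomainRingHom_apply, MonoidAlgebra.mapDomain]
  apply MonoidAlgebra.coeff_injective
  change Finsupp.mapDomain Subtype.val _ = _
  rw [Finsupp.mapDomain_comapDomain _ Subtype.val_injective]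
  intro g hg
  exact ⟨⟨g, hx g hg⟩, rfl⟩

lemma split_letter_map {H : Type*} [Group H] (ψ : H →* Γ) (x : MonoidAlgebra S H) :
    letter S Γ (MonoidAlgebra.mapDomainRingHom S ψ x) =
      MonoidAlgebra.mapDomainRingHom S (FreeMonoid.map ψ) (letter S H x) := by
  induction x using MonoidAlgebra.induction_linear with
  | zero => simp only [map_zero]
  | add y z hy hz => simp only [map_add, hy, hz]
  | single a r =>
    rw [letter_single, MonoidAlgebra.mapDomainRingHom_apply, MonoidAlgebra.mapDomainRingHom_apply,
      MonoidAlgebra.mapDomain_single, MonoidAlgebra.mapDomain_single, letter_single,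
      FreeMonoid.map_of]

lemma split_letM_map {H : Type*} [Group H] (ψ : H →* Γ)
    (C : Matrix (Fin n) (Fin n) (MonoidAlgebra S H)) :
    letM ((MonoidAlgebra.mapDomainRingHom S ψ).mapMatrix C) =
      (MonoidAlgebra.mapDomainRingHom S (FreeMonoid.map ψ)).mapMatrix (letM C) := by
  refine Matrix.ext fun i j => ?_
  exact split_letter_map ψ (C i j)

lemma split_lin_map {H : Type*} [Group H] (ψ : H →* Γ) (F : List Γ → S)
    (x : MonoidAlgebra S (FreeMonoid H)) :
    lin (fun w : FreeMonoid Γ => F w.toList)
        (MonoidAlgebra.mapDomainRingHom S (FreeMonoid.map ψ) x) =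
      lin (fun w : FreeMonoid H => F (w.toList.map ψ)) x := by
  induction x using MonoidAlgebra.induction_linear with
  | zero => simp only [map_zero]
  | add y z hy hz => simp only [map_add, hy, hz]
  | single a r =>
    rw [MonoidAlgebra.mapDomainRingHom_apply, MonoidAlgebra.mapDomain_single, lin_single,
      lin_single, FreeMonoid.toList_map]

lemma split_wsum_map {H : Type*} [Group H] (ψ : H →* Γ)
    (B A : Matrix (Fin n) (Fin n) (MonoidAlgebra S H)) (Q : ℕ) (F : List Γ → S) :
    wsum ((MonoidAlgebra.mapDomainRingHom S ψ).mapMatrix B)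
        ((MonoidAlgebra.mapDomainRingHom S ψ).mapMatrix A) Q F =
      wsum B A Q (fun w => F (w.map ψ)) := by
  unfold wsum
  rw [split_letM_map, split_letM_map, ← map_mul, ← map_pow, ← split_lin_map]
  congr 1
  rw [Matrix.trace, Matrix.trace, map_sum]
  rfl

lemma split_verts_map {H : Type*} [Group H] (ψ : H →* Γ) (w : List H) :
    verts (w.map ψ) = (verts w).map ψ := by
  unfold verts
  rw [List.length_map, List.map_map]
  refine List.map_congr_left fun j _ => ?_
  rw [Function.comp_apply, map_list_prod, List.map_take]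

/-- PROOF. The subgroup `H` generated by the finitely many elements in the supports of the entries;
`exists_res`, `map_mul`, injectivity as in `vanish_mod_subgroup`. For the last part:
`letM` commutes with `mapDomain`, `lin (fun w => F w.toList) (mapDomain x) = lin (fun w => F (w.toList.map val)) x`;
products and `verts` of the mapped words. -/
theorem exists_restrict (A B : Matrix (Fin n) (Fin n) (MonoidAlgebra S Γ)) (hAB : A * B = 1)
    (hBA : B * A = 1) :
    ∃ (H : Subgroup Γ) (A' B' : Matrix (Fin n) (Fin n) (MonoidAlgebra S H)), H.FG ∧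
      A' * B' = 1 ∧ B' * A' = 1 ∧
      ∀ (m : ℕ) (ω : Γ → List Γ → S), chern m A B ω = chern m A' B' (resH H ω) := by
  classical
  let T : Finset Γ := (Finset.univ.biUnion fun i => Finset.univ.biUnion fun j =>
    (A i j).coeff.support) ∪ (Finset.univ.biUnion fun i => Finset.univ.biUnion fun j =>
    (B i j).coeff.support)
  have hTA : ∀ i j, ∀ g ∈ (A i j).coeff.support, g ∈ T := fun i j g hg =>
    Finset.mem_union_left _ (Finset.mem_biUnion.2 ⟨i, Finset.mem_univ _,
      Finset.mem_biUnion.2 ⟨j, Finset.mem_univ _, hg⟩⟩)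
  have hTB : ∀ i j, ∀ g ∈ (B i j).coeff.support, g ∈ T := fun i j g hg =>
    Finset.mem_union_right _ (Finset.mem_biUnion.2 ⟨i, Finset.mem_univ _,
      Finset.mem_biUnion.2 ⟨j, Finset.mem_univ _, hg⟩⟩)
  let H : Subgroup Γ := Subgroup.closure (T : Set Γ)
  have hTH : ∀ g ∈ T, g ∈ H := fun g hg => Subgroup.subset_closure hg
  choose A' hA' using fun i j => split_exists_res H (A i j) (fun g hg => hTH g (hTA i j g hg))
  choose B' hB' using fun i j => split_exists_res H (B i j) (fun g hg => hTH g (hTB i j g hg))
  set φ := MonoidAlgebra.mapDomainRingHom S H.subtype with hφ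
  have hφinj : Function.Injective φ := MonoidAlgebra.mapDomain_injective Subtype.val_injective
  have hAm : φ.mapMatrix (Matrix.of A') = A := by
    refine Matrix.ext fun i j => ?_
    exact hA' i j
  have hBm : φ.mapMatrix (Matrix.of B') = B := by
    refine Matrix.ext fun i j => ?_
    exact hB' i j
  have hminj : Function.Injective (φ.mapMatrix : Matrix (Fin n) (Fin n) (MonoidAlgebra S H) →+* _) :=
    Matrix.map_injective hφinj
  refine ⟨H, Matrix.of A', Matrix.of B', ⟨T, rfl⟩, ?_, ?_, fun m ω => ?_⟩
  · apply hminj
    rw [map_mul, map_one, hAm, hBm, hAB]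
  · apply hminj
    rw [map_mul, map_one, hAm, hBm, hBA]
  · unfold chern
    rw [← hAm, ← hBm, hφ, split_wsum_map]
    refine wsum_congr _ _ _ fun w _ => ?_
    rw [split_verts_map, ← map_list_prod]
    rfl

open Classical in
/-- The restriction of a cochain to a conjugacy class. -/
noncomputable def clsR (c0 : Γ) (ω : Γ → List Γ → S) : Γ → List Γ → S :=
  fun c u => if IsConj c0 c then ω c u else 0

theorem clsR_cocycle {r : ℕ} (hω : IsHomCocycle r ω) (c0 : Γ) :
    IsHomCocycle r (clsR c0 ω) where
  len c u hu := by
    unfold clsR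
    split_ifs
    · exact hω.len c u hu
    · rfl
  equivariant x c u := by
    have h1 : IsConj c0 (x * c * x⁻¹) ↔ IsConj c0 c := by
      have h2 : IsConj c (x * c * x⁻¹) := isConj_iff.2 ⟨x, rfl⟩
      exact ⟨fun h => h.trans h2.symm, fun h => h.trans h2⟩
    unfold clsR
    by_cases h : IsConj c0 c
    · rw [if_pos (h1.2 h), if_pos h, hω.equivariant]
    · rw [if_neg (fun h2 => h (h1.1 h2)), if_neg h]
  periodic c u a v := by
    unfold clsR
    split_ifs
    · exact hω.periodic c u a v
    · rfl
  alternating c u a b v := by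
    unfold clsR
    split_ifs
    · exact hω.alternating c u a b v
    · rw [neg_zero]
  diag c u a v := by
    unfold clsR
    split_ifs
    · exact hω.diag c u a v
    · rfl
  cocycle c u := by
    unfold clsR
    split_ifs
    · exact hω.cocycle c u
    · simp only [mul_zero, Finset.sum_const_zero]

/-- PROOF. Let `T` be the finite set of the elements in the supports of the entries of `A` and `B`; the
products of the words of length `2 (m+1)` with letters in `T` form a finite set; let `R` be a finite set
of representatives of their conjugacy classes. On such words `F w = Σ_{c0 ∈ R} F_{c0} w`, with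
`F w = ω w.prod (verts w)`. So by `wsum_eq_zero_of_support` (applied to the difference), `wsum_add`,
`chern ω = Σ_{c0 ∈ R} chern (clsR c0 ω) = 0`. -/
theorem chern_split (A B : Matrix (Fin n) (Fin n) (MonoidAlgebra S Γ))
    (h : ∀ c0 : Γ, chern m A B (clsR c0 ω) = 0) : chern m A B ω = 0 := by
  classical
  unfold chern wsum at h ⊢
  set X := Matrix.trace ((letM B * letM A) ^ (m + 1)) with hX
  rw [lin_apply, Finsupp.sum, ← Finset.sum_fiberwise_of_maps_to
    (g := fun w : FreeMonoid Γ => ConjClasses.mk w.toList.prod)
    (fun w hw => Finset.mem_image_of_mem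
      (fun w : FreeMonoid Γ => ConjClasses.mk w.toList.prod) hw)]
  refine Finset.sum_eq_zero fun C hC => ?_
  obtain ⟨c0, rfl⟩ := ConjClasses.exists_rep C
  rw [← h c0, lin_apply, Finsupp.sum, Finset.sum_filter]
  refine Finset.sum_congr rfl fun w _ => ?_
  unfold clsR
  have h1 : ConjClasses.mk w.toList.prod = ConjClasses.mk c0 ↔ IsConj c0 w.toList.prod := by
    rw [ConjClasses.mk_eq_mk_iff_isConj]
    exact isConj_comm
  beta_reduce
  by_cases h2 : IsConj c0 w.toList.prod
  · rw [if_pos (h1.2 h2), if_pos h2]
  · rw [if_neg (fun h3 => h2 (h1.1 h3)), if_neg h2, mul_zero]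

end Pool.Agent.Lib.MP_8f66f0_al_ChernS
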