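import Mathlib
import Pool.Agent.Lib.MP_8f66f0_al_ChernS.Pairing
import Pool.Agent.Lib.MP_8f66f0_al_ChernS.Split

/-! # Restriction of cocycles with values in an abelian group. -/

set_option autoImplicit false
set_option linter.unusedSectionVars false
set_option linter.unusedVariables false

namespace Pool.Agent.Lib.MP_8f66f0_al_ChernS

open Pool.Agent.Lib.MP_8f66f0_al_FinQ Pool.Agent.Lib.MP_8f66f0_al_Uni

universe w

variable {Γ : Type*} [Group Γ] {n m : ℕ} {M : Type*} [AddCommGroup M] {ω : Γ → List Γ → M}

/-- The restriction of a cochain to a subgroup. -/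
def resM (H : Subgroup Γ) (ω : Γ → List Γ → M) : H → List H → M :=
  fun c u => ω c (u.map Subtype.val)

theorem resM_cocycle {r : ℕ} (hω : IsCyclicCocycle r ω) (H : Subgroup Γ) :
    IsCyclicCocycle r (resM H ω) where
  len c u hu := hω.len _ _ (by rwa [List.length_map])
  equivariant x c u := by
    have h1 : (u.map (x * ·)).map Subtype.val = (u.map Subtype.val).map ((x : Γ) * ·) := by
      rw [List.map_map, List.map_map]
      rfl
    unfold resM
    rw [h1]
    exact hω.equivariant (x : Γ) (c : Γ) (u.map Subtype.val)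
  periodic c u a v := by
    unfold resM
    rw [List.map_append, List.map_cons, List.map_append, List.map_cons]
    exact hω.periodic (c : Γ) (u.map Subtype.val) (a : Γ) (v.map Subtype.val)
  alternating c u a b v := by
    unfold resM
    rw [List.map_append, List.map_cons, List.map_cons, List.map_append, List.map_cons,
      List.map_cons]
    exact hω.alternating (c : Γ) (u.map Subtype.val) (a : Γ) (b : Γ) (v.map Subtype.val)
  diag c u a v := by
    unfold resM
    rw [List.map_append, List.map_cons, List.map_cons]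
    exact hω.diag (c : Γ) (u.map Subtype.val) (a : Γ) (v.map Subtype.val)
  cocycle c u := by
    have h := hω.cocycle (c : Γ) (u.map Subtype.val)
    rw [List.length_map] at h
    rw [← h]
    refine Finset.sum_congr rfl fun i _ => ?_
    unfold resM
    rw [split_map_eraseIdx]

/-- Restriction of the pairing to the subgroup generated by the supports. -/
theorem exists_restrictM (A B : Matrix (Fin n) (Fin n) (MonoidAlgebra ℤ Γ)) (hAB : A * B = 1)
    (hBA : B * A = 1) :
    ∃ (H : Subgroup Γ) (A' B' : Matrix (Fin n) (Fin n) (MonoidAlgebra ℤ H)), H.FG ∧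
      A' * B' = 1 ∧ B' * A' = 1 ∧
      ∀ (M : Type w) [AddCommGroup M] (m : ℕ) (ω : Γ → List Γ → M),
        pairing m A B ω = pairing m A' B' (resM H ω) := by
  classical
  let T : Finset Γ := (Finset.univ.biUnion fun i => Finset.univ.biUnion fun j =>
    (A i j).coeff.support) ∪ (Finset.univ.biUnion fun i => Finset.univ.biUnion fun j =>
    (B i j).coeff.support)
  have hTA : ∀ i j, ∀ g ∈ (A i j).coeff.support, g ∈ T := fun i j g hg =>
    Finset.mem_union_left _ (Finset.mem_biUnion.2 ⟨i, Finset.mem_univ _,
      Finset.mem_biUnion.2 ⟨j, Finset.mem_univ _, hg⟩⟩)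
  have hTB : ∀ i j, ∀ g ∈ (B i j).coeff.support, g ∈ T := fun i j g hg =>
    Finset.mem_union_right _ (Finset.mem_biUnion.2 ⟨i, Finset.mem_univ _,
      Finset.mem_biUnion.2 ⟨j, Finset.mem_univ _, hg⟩⟩)
  let H : Subgroup Γ := Subgroup.closure (T : Set Γ)
  have hTH : ∀ g ∈ T, g ∈ H := fun g hg => Subgroup.subset_closure hg
  choose A' hA' using fun i j => split_exists_res H (A i j) (fun g hg => hTH g (hTA i j g hg))
  choose B' hB' using fun i j => split_exists_res H (B i j) (fun g hg => hTH g (hTB i j g hg))
  set φ := MonoidAlgebra.mapDomainRingHom ℤ H.subtype with hφ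
  have hφinj : Function.Injective φ := MonoidAlgebra.mapDomain_injective Subtype.val_injective
  have hAm : φ.mapMatrix (Matrix.of A') = A := by
    refine Matrix.ext fun i j => ?_
    exact hA' i j
  have hBm : φ.mapMatrix (Matrix.of B') = B := by
    refine Matrix.ext fun i j => ?_
    exact hB' i j
  have hminj : Function.Injective (φ.mapMatrix : Matrix (Fin n) (Fin n) (MonoidAlgebra ℤ H) →+* _) :=
    Matrix.map_injective hφinj
  refine ⟨H, Matrix.of A', Matrix.of B', ⟨T, rfl⟩, ?_, ?_, fun M _ m ω => ?_⟩
  · apply hminj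
    rw [map_mul, map_one, hAm, hBm, hAB]
  · apply hminj
    rw [map_mul, map_one, hAm, hBm, hBA]
  · unfold pairing
    conv_lhs => rw [← hAm, ← hBm]
    rw [hφ, split_letM_map, split_letM_map, ← map_mul, ← map_pow]
    have h4 : Matrix.trace ((MonoidAlgebra.mapDomainRingHom ℤ (FreeMonoid.map H.subtype)).mapMatrix
        ((letM (Matrix.of B') * letM (Matrix.of A')) ^ (m + 1))) =
        MonoidAlgebra.mapDomainRingHom ℤ (FreeMonoid.map H.subtype)
          (Matrix.trace ((letM (Matrix.of B') * letM (Matrix.of A')) ^ (m + 1))) := by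
      rw [Matrix.trace, Matrix.trace, map_sum]
      rfl
    rw [h4]
    generalize Matrix.trace ((letM (Matrix.of B') * letM (Matrix.of A')) ^ (m + 1)) = x
    have h5 : ∀ w : FreeMonoid H, ω (FreeMonoid.map H.subtype w).toList.prod
        (verts (FreeMonoid.map H.subtype w).toList) = resM H ω w.toList.prod (verts w.toList) := by
      intro w
      rw [FreeMonoid.toList_map, split_verts_map, ← map_list_prod]
      rfl
    rw [MonoidAlgebra.mapDomainRingHom_apply, MonoidAlgebra.mapDomain]
    change (Finsupp.mapDomain (FreeMonoid.map H.subtype) x.coeff).sum _ = _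
    have h6 := Finsupp.sum_mapDomain_index (f := FreeMonoid.map H.subtype) (s := x.coeff)
      (h := fun (w : FreeMonoid Γ) (a : ℤ) => a • ω w.toList.prod (verts w.toList))
      (fun _ => zero_smul ℤ _) (fun _ _ _ => add_smul _ _ _)
    rw [h6]
    exact Finsupp.sum_congr fun w _ => by rw [h5]

open Classical in
/-- The restriction of a cochain to a conjugacy class. -/
noncomputable def clsM (c0 : Γ) (ω : Γ → List Γ → M) : Γ → List Γ → M :=
  fun c u => if IsConj c0 c then ω c u else 0

theorem clsM_cocycle {r : ℕ} (hω : IsCyclicCocycle r ω) (c0 : Γ) :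
    IsCyclicCocycle r (clsM c0 ω) where
  len c u hu := by
    unfold clsM
    split_ifs
    · exact hω.len c u hu
    · rfl
  equivariant x c u := by
    have h1 : IsConj c0 (x * c * x⁻¹) ↔ IsConj c0 c := by
      have h2 : IsConj c (x * c * x⁻¹) := isConj_iff.2 ⟨x, rfl⟩
      exact ⟨fun h => h.trans h2.symm, fun h => h.trans h2⟩
    unfold clsM
    by_cases h : IsConj c0 c
    · rw [if_pos (h1.2 h), if_pos h, hω.equivariant]
    · rw [if_neg (fun h2 => h (h1.1 h2)), if_neg h]
  periodic c u a v := by
    unfold clsM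
    split_ifs
    · exact hω.periodic c u a v
    · rfl
  alternating c u a b v := by
    unfold clsM
    split_ifs
    · exact hω.alternating c u a b v
    · rw [neg_zero]
  diag c u a v := by
    unfold clsM
    split_ifs
    · exact hω.diag c u a v
    · rfl
  cocycle c u := by
    unfold clsM
    split_ifs
    · exact hω.cocycle c u
    · simp only [smul_zero, Finset.sum_const_zero]

theorem pairing_split (A B : Matrix (Fin n) (Fin n) (MonoidAlgebra ℤ Γ))
    (h : ∀ c0 : Γ, pairing m A B (clsM c0 ω) = 0) : pairing m A B ω = 0 := by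
  classical
  unfold pairing at h ⊢
  set X := Matrix.trace ((letM B * letM A) ^ (m + 1)) with hX
  rw [Finsupp.sum, ← Finset.sum_fiberwise_of_maps_to
    (g := fun w : FreeMonoid Γ => ConjClasses.mk w.toList.prod)
    (fun w hw => Finset.mem_image_of_mem
      (fun w : FreeMonoid Γ => ConjClasses.mk w.toList.prod) hw)]
  refine Finset.sum_eq_zero fun C hC => ?_
  obtain ⟨c0, rfl⟩ := ConjClasses.exists_rep C
  rw [← h c0, Finsupp.sum, Finset.sum_filter]
  refine Finset.sum_congr rfl fun w _ => ?_
  unfold clsM
  have h1 : ConjClasses.mk w.toList.prod = ConjClasses.mk c0 ↔ IsConj c0 w.toList.prod := by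
    rw [ConjClasses.mk_eq_mk_iff_isConj]
    exact isConj_comm
  beta_reduce
  by_cases h2 : IsConj c0 w.toList.prod
  · rw [if_pos (h1.2 h2), if_pos h2]
  · rw [if_neg (fun h3 => h2 (h1.1 h3)), if_neg h2, smul_zero]

/-- The pairing vanishes if the values on the words with letters in the supports do. -/
theorem pairing_eq_zero_of_support (A B : Matrix (Fin n) (Fin n) (MonoidAlgebra ℤ Γ))
    (T : Set Γ) (hB : ∀ i j g, (B i j).coeff g ≠ 0 → g ∈ T)
    (hA : ∀ i j g, (A i j).coeff g ≠ 0 → g ∈ T)
    (h : ∀ w : List Γ, w.length = 2 * (m + 1) → (∀ g ∈ w, g ∈ T) → ω w.prod (verts w) = 0) :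
    pairing m A B ω = 0 := by
  classical
  unfold pairing
  rw [Finsupp.sum]
  refine Finset.sum_eq_zero fun w hw => ?_
  have h1 : wsum B A (m + 1) (fun v => if FreeMonoid.ofList v = w ∧ ω w.toList.prod (verts w.toList) ≠ 0
      then (1 : ℤ) else 0) = 0 := by
    refine wsum_eq_zero_of_support B A (m + 1) T hB hA fun v hv hvT => ?_
    rw [if_neg]
    rintro ⟨h2, h3⟩
    rw [← h2, FreeMonoid.toList_ofList] at h3
    exact h3 (h v hv hvT)
  by_cases h3 : ω w.toList.prod (verts w.toList) = 0
  · rw [h3, smul_zero]
  · unfold wsum at h1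
    rw [lin_apply, Finsupp.sum, Finset.sum_eq_single_of_mem w hw] at h1
    · simp only [FreeMonoid.ofList_toList, true_and, h3, ne_eq, not_false_eq_true, if_true,
        mul_one] at h1
      rw [h1, zero_smul]
    · intro v _ hv
      simp only [FreeMonoid.ofList_toList, hv, false_and, if_false, mul_zero]

end Pool.Agent.Lib.MP_8f66f0_al_ChernS
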