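import Mathlib
import Pool.Agent.Lib.MP_8f66f0_al_ChernS.ClassB
import Pool.Agent.Lib.MP_8f66f0_al_ChernS.Pairing

/-! # Vanishing modulo `p`. -/

set_option autoImplicit false
set_option linter.unusedSectionVars false
set_option linter.unusedVariables false

namespace Pool.Agent.Lib.MP_8f66f0_al_ChernS

open Pool.Agent.Lib.MP_8f66f0_al_FinQ Pool.Agent.Lib.MP_8f66f0_al_Uni

variable {Γ : Type*} [Group Γ] {n m : ℕ}

lemma desc_coprime {p m : ℕ} (hp : p.Prime) (hmp : m < p) :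
    ¬ p ∣ (p - 1).descFactorial m := by
  intro h1
  have h2 := Nat.factorial_mul_descFactorial (n := p - 1) (k := m) (by omega)
  have h3 : p ∣ (p - 1).factorial := by
    rw [← h2]
    exact Dvd.dvd.mul_left h1 _
  have h4 := (Nat.Prime.dvd_factorial hp).1 h3
  have := hp.pos
  omega

lemma zmod_cancel {p m : ℕ} (hp : p.Prime) (hmp : m < p) (x : ZMod p)
    (h : (p : ZMod p) ∣ ((p - 1).descFactorial m : ZMod p) * x) : x = 0 := by
  haveI : Fact p.Prime := ⟨hp⟩
  rw [ZMod.natCast_self, zero_dvd_iff] at h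
  rcases mul_eq_zero.1 h with h1 | h1
  · exact absurd ((ZMod.natCast_eq_zero_iff _ _).1 h1) (desc_coprime hp hmp)
  · exact h1

lemma baseMat_support {S : Type*} [CommRing S] (A : Matrix (Fin n) (Fin n) (MonoidAlgebra ℤ Γ))
    (T : Set Γ) (hA : ∀ i j g, (A i j).coeff g ≠ 0 → g ∈ T) :
    ∀ i j g, (baseMat S A i j).coeff g ≠ 0 → g ∈ T := by
  intro i j g hg
  refine hA i j g fun h0 => hg ?_
  change (MonoidAlgebra.mapRingHom Γ (Int.castRingHom S) (A i j)).coeff g = 0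
  rw [MonoidAlgebra.coeff_mapRingHom]
  simp [h0]

lemma baseMat_mul_one {S : Type*} [CommRing S] {A B : Matrix (Fin n) (Fin n) (MonoidAlgebra ℤ Γ)}
    (h : A * B = 1) : baseMat S A * baseMat S B = 1 := by
  rw [← map_mul, h, map_one]

/-- Vanishing modulo `p` at the class of `1`. -/
theorem zmod_one {p : ℕ} (hp : p.Prime) (hm : 0 < m) (hmp : m < p) {ω : Γ → List Γ → ZMod p}
    (hω : IsCyclicCocycle (2 * (m + 1)) ω)
    (A B : Matrix (Fin n) (Fin n) (MonoidAlgebra ℤ Γ)) (hAB : A * B = 1) (hBA : B * A = 1)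
    (T : Set Γ) (hB : ∀ i j g, (B i j).coeff g ≠ 0 → g ∈ T)
    (hA : ∀ i j g, (A i j).coeff g ≠ 0 → g ∈ T)
    (ht : ∀ a ∈ T, ∀ b ∈ T, (a * b) ^ p = 1 → a * b = 1)
    (hsupp : ∀ c u, c ≠ 1 → ω c u = 0) : pairing m A B ω = 0 := by
  rw [← chern_base]
  refine zmod_cancel hp hmp _ ?_
  exact classB_dvd hω.hom hm (reg_char hp hmp (ZMod.natCast_self p)) _ _ (baseMat_mul_one hAB)
    (baseMat_mul_one hBA) T (baseMat_support B T hB) (baseMat_support A T hA) hp ht hsupp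

/-- Vanishing modulo `p` at a class without roots. -/
theorem zmod_cls {p : ℕ} (hp : p.Prime) (hmp : m < p) {ω : Γ → List Γ → ZMod p}
    (hω : IsCyclicCocycle (2 * (m + 1)) ω)
    (A B : Matrix (Fin n) (Fin n) (MonoidAlgebra ℤ Γ)) (hAB : A * B = 1) (hBA : B * A = 1)
    (T : Set Γ) (hB : ∀ i j g, (B i j).coeff g ≠ 0 → g ∈ T)
    (hA : ∀ i j g, (A i j).coeff g ≠ 0 → g ∈ T) (c0 : Γ)
    (ht : ∀ a ∈ T, ∀ b ∈ T, ¬ IsConj c0 ((a * b) ^ p))
    (hsupp : ∀ c u, ¬ IsConj c0 c → ω c u = 0) : pairing m A B ω = 0 := by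
  rw [← chern_base]
  refine zmod_cancel hp hmp _ ?_
  have h := classQ_dvd hω.hom (reg_char hp hmp (ZMod.natCast_self p)) _ _ (baseMat_mul_one hAB)
    (baseMat_mul_one hBA) T (baseMat_support B T hB) (baseMat_support A T hA) hp 1 0 one_pos c0
    (by
      intro l hl y hy hyT
      have hl0 : l = 0 := by omega
      subst hl0
      rw [pow_zero] at hy
      obtain ⟨g, rfl⟩ := List.length_eq_one_iff.1 hy
      obtain ⟨a, ha, b, hb, hg⟩ := hyT g (by simp)
      rw [List.prod_singleton, hg]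
      simpa using ht a ha b hb) hsupp
  simpa using h

end Pool.Agent.Lib.MP_8f66f0_al_ChernS
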