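import Mathlib
import Pool.Agent.Lib.MP_8f66f0_al_ChernS.IntCls
import Pool.Agent.Lib.MP_8f66f0_al_ChernS.SplitM
import Pool.Agent.Lib.MP_8f66f0_al_ChernS.Zmod

/-! # The main theorems. -/

set_option autoImplicit false
set_option linter.unusedSectionVars false
set_option linter.unusedVariables false

namespace Pool.Agent.Lib.MP_8f66f0_al_ChernS

open Pool.Agent.Lib.MP_8f66f0_al_FinQ Pool.Agent.Lib.MP_8f66f0_al_Uni

universe w

/-- In every finitely generated subgroup `H` containing `c` and for every `v ∈ H`, the element `c`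
is conjugate in `H` to `v ^ p` for finitely many primes `p` only. -/
def FewRoots {Γ : Type*} [Group Γ] (c : Γ) : Prop :=
  ∀ H : Subgroup Γ, H.FG → c ∈ H → ∀ v ∈ H,
    {p : ℕ | p.Prime ∧ ∃ t ∈ H, t * v ^ p * t⁻¹ = c}.Finite

/-- In every finitely generated subgroup `H` containing `c` there is a prime `p` such that for every
`v ∈ H` the element `c` is conjugate in `H` to `v ^ (p ^ i)` for finitely many `i` only. -/
def FewPowers {Γ : Type*} [Group Γ] (c : Γ) : Prop :=
  ∀ H : Subgroup Γ, H.FG → c ∈ H → ∃ p : ℕ, p.Prime ∧ ∀ v ∈ H,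
    {i : ℕ | ∃ t ∈ H, t * v ^ p ^ i * t⁻¹ = c}.Finite

variable {Γ : Type*} [Group Γ] {n m : ℕ}

lemma not_fewRoots_one : ¬ FewRoots (1 : Γ) := by
  intro h
  have h1 := h ⊥ Subgroup.FG.bot (one_mem _) 1 (one_mem _)
  refine Nat.infinite_setOfPred_prime (h1.subset ?_)
  intro p hp
  exact ⟨hp, 1, one_mem _, by simp⟩

lemma not_fewPowers_one : ¬ FewPowers (1 : Γ) := by
  intro h
  obtain ⟨p, hp, h1⟩ := h ⊥ Subgroup.FG.bot (one_mem _)
  refine Set.infinite_univ (α := ℕ) ((h1 1 (one_mem _)).subset ?_)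
  intro i _
  exact ⟨1, one_mem _, by simp⟩

lemma pairing_zero {M : Type*} [AddCommGroup M]
    (A B : Matrix (Fin n) (Fin n) (MonoidAlgebra ℤ Γ)) :
    pairing m A B (fun _ _ => (0 : M)) = 0 := by
  unfold pairing
  simp

lemma exists_field_dual (K : Type*) [Field K] {V : Type*} [AddCommGroup V] [Module K V] (v : V)
    (hv : v ≠ 0) : ∃ f : V →+ K, f v ≠ 0 := by
  obtain ⟨f, hf⟩ := Module.Projective.exists_dual_ne_zero K hv
  exact ⟨LinearMap.toAddMonoidHom f, hf⟩

lemma exists_zmod_dual {V : Type*} [AddCommGroup V] {p : ℕ} (hp : p.Prime)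
    (hV : ∀ v : V, p • v = 0) (v : V) (hv : v ≠ 0) : ∃ f : V →+ ZMod p, f v ≠ 0 := by
  haveI : Fact p.Prime := ⟨hp⟩
  letI : Module (ZMod p) V := AddCommGroup.zmodModule hV
  exact exists_field_dual (ZMod p) v hv

/-- An element of an abelian group killed by all homomorphisms to `ZMod p` is divisible by `p`. -/
lemma mem_of_dual {M : Type*} [AddCommGroup M] {p : ℕ} (hp : p.Prime) (y : M)
    (h : ∀ f : M →+ ZMod p, f y = 0) : ∃ x : M, y = p • x := by
  by_contra hne
  set N : AddSubgroup M := (DistribSMul.toAddMonoidHom M p).range with hN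
  have h1 : (QuotientAddGroup.mk y : M ⧸ N) ≠ 0 := by
    intro h2
    rw [QuotientAddGroup.eq_zero_iff] at h2
    obtain ⟨x, hx⟩ := h2
    exact hne ⟨x, hx.symm⟩
  obtain ⟨f, hf⟩ := exists_zmod_dual hp (by
    intro x
    obtain ⟨x, rfl⟩ := QuotientAddGroup.mk_surjective x
    rw [← QuotientAddGroup.mk_nsmul, QuotientAddGroup.eq_zero_iff]
    exact ⟨x, rfl⟩) _ h1
  exact hf (h (f.comp (QuotientAddGroup.mk' N)))

/-- The class of `1`. -/
theorem main_one (htf : ∀ g : Γ, ∀ k : ℕ, 0 < k → g ^ k = 1 → g = 1)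
    (A B : Matrix (Fin n) (Fin n) (MonoidAlgebra ℤ Γ)) (hAB : A * B = 1) (hBA : B * A = 1)
    {M : Type*} [AddCommGroup M] {ω : Γ → List Γ → M} (hω : IsCyclicCocycle (2 * (m + 1)) ω)
    (hm : 0 < m) (hsupp : ∀ c u, c ≠ 1 → ω c u = 0) {p : ℕ} (hp : p.Prime) (hmp : m < p) :
    ∃ x : M, pairing m A B ω = p • x := by
  refine mem_of_dual hp _ fun f => ?_
  rw [← pairing_map]
  exact zmod_one hp hm hmp (hω.map f) A B hAB hBA Set.univ (fun _ _ _ _ => Set.mem_univ _)
    (fun _ _ _ _ => Set.mem_univ _) (fun a _ b _ h => htf _ p hp.pos h)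
    (fun c u hc => by rw [hsupp c u hc, map_zero])

/-- A class of a finitely generated group. -/
lemma clsM_zero_or {M : Type*} [AddCommGroup M] (c0 : Γ) (ω : Γ → List Γ → M) :
    clsM c0 ω = (fun _ _ => 0) ∨ ∃ c u, IsConj c0 c ∧ ω c u ≠ 0 := by
  by_cases h : ∃ c u, IsConj c0 c ∧ ω c u ≠ 0
  · exact Or.inr h
  · left
    push Not at h
    funext c u
    unfold clsM
    split_ifs with hc
    · exact h c u hc
    · rfl

lemma isConj_of_sub {H : Subgroup Γ} {c v : H} {k : ℕ} (h : IsConj c (v ^ k)) :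
    ∃ t ∈ H, t * (v : Γ) ^ k * t⁻¹ = c := by
  obtain ⟨t, ht⟩ := isConj_iff.1 h
  refine ⟨(t⁻¹ : H), (t⁻¹ : H).2, ?_⟩
  have h1 : (v ^ k : H) = t * c * t⁻¹ := ht.symm
  have h2 : ((v ^ k : H) : Γ) = t * c * (t : Γ)⁻¹ := by rw [h1]; rfl
  rw [← SubgroupClass.coe_pow, h2]
  simp only [Subgroup.coe_inv, inv_inv]
  group

/-- The supports of the entries of two matrices. -/
lemma exists_T (A B : Matrix (Fin n) (Fin n) (MonoidAlgebra ℤ Γ)) :
    ∃ T : Set Γ, T.Finite ∧ (∀ i j g, (B i j).coeff g ≠ 0 → g ∈ T) ∧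
      (∀ i j g, (A i j).coeff g ≠ 0 → g ∈ T) := by
  classical
  refine ⟨(⋃ i, ⋃ j, ((B i j).coeff.support : Set Γ)) ∪ (⋃ i, ⋃ j, ((A i j).coeff.support : Set Γ)),
    Set.Finite.union (Set.finite_iUnion fun i => Set.finite_iUnion fun j => Finset.finite_toSet _)
      (Set.finite_iUnion fun i => Set.finite_iUnion fun j => Finset.finite_toSet _), ?_, ?_⟩
  · intro i j g hg
    left
    simp only [Set.mem_iUnion]
    exact ⟨i, j, Finsupp.mem_support_iff.2 hg⟩
  · intro i j g hg
    right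
    simp only [Set.mem_iUnion]
    exact ⟨i, j, Finsupp.mem_support_iff.2 hg⟩

/-- Almost all primes. -/
theorem main_almost (htf : ∀ g : Γ, ∀ k : ℕ, 0 < k → g ^ k = 1 → g = 1)
    (A B : Matrix (Fin n) (Fin n) (MonoidAlgebra ℤ Γ)) (hAB : A * B = 1) (hBA : B * A = 1)
    (m : ℕ) :
    ∃ N : ℕ, ∀ p : ℕ, p.Prime → N < p → ∀ (M : Type w) [AddCommGroup M] (ω : Γ → List Γ → M),
      IsCyclicCocycle (2 * (m + 1)) ω →
      (∀ c u, ω c u ≠ 0 → (c = 1 ∧ 0 < m) ∨ FewRoots c) →
      ∃ x : M, pairing m A B ω = p • x := by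
  classical
  obtain ⟨H, A', B', hH, hAB', hBA', hres⟩ := exists_restrictM.{w} A B hAB hBA
  obtain ⟨T, hT, hTB, hTA⟩ := exists_T A' B'
  -- the products of the words
  have hL := finite_lists T hT (2 * (m + 1))
  set P : Set H := (fun w : List H => w.prod) '' {y : List H | y.length = 2 * (m + 1) ∧
    ∀ g ∈ y, g ∈ T} with hP
  have hPf : P.Finite := hL.image _
  set G : Set H := {c ∈ P | ∀ v : H, {p : ℕ | p.Prime ∧ IsConj c (v ^ p)}.Finite} with hG
  have hGf : G.Finite := hPf.subset fun c hc => hc.1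
  have hbad : (⋃ c ∈ hGf.toFinset, ⋃ a ∈ hT.toFinset, ⋃ b ∈ hT.toFinset,
      {p : ℕ | p.Prime ∧ IsConj c ((a * b) ^ p)}).Finite := by
    refine Set.Finite.biUnion (Finset.finite_toSet _) fun c hc => ?_
    refine Set.Finite.biUnion (Finset.finite_toSet _) fun a _ => ?_
    refine Set.Finite.biUnion (Finset.finite_toSet _) fun b _ => ?_
    have hc' : c ∈ G := hGf.mem_toFinset.1 hc
    exact hc'.2 (a * b)
  obtain ⟨N, hN⟩ := hbad.bddAbove
  refine ⟨max m N, fun p hp hNp M _ ω hω hsupp => ?_⟩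
  have hmp : m < p := lt_of_le_of_lt (le_max_left _ _) hNp
  have hpN : N < p := lt_of_le_of_lt (le_max_right _ _) hNp
  rw [hres M m ω]
  refine mem_of_dual hp _ fun f => ?_
  rw [← pairing_map]
  have hω' := (resM_cocycle hω H).map f
  refine pairing_split A' B' fun c0 => ?_
  have hω'' := clsM_cocycle hω' c0
  rcases clsM_zero_or c0 (fun c u => f (resM H ω c u)) with hz | ⟨c, u, hcc, hcu⟩
  · rw [hz]
    exact pairing_zero A' B'
  have hne : ω (c : Γ) (u.map Subtype.val) ≠ 0 := by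
    intro h
    apply hcu
    change f (ω (c : Γ) (u.map Subtype.val)) = 0
    rw [h, map_zero]
  by_cases hc : c0 = 1
  · subst hc
    have hc1 : c = 1 := isConj_one_right.1 hcc
    have hm : 0 < m := by
      rcases hsupp _ _ hne with h | h
      · exact h.2
      · rw [hc1] at h
        exact absurd h not_fewRoots_one
    refine zmod_one hp hm hmp hω'' A' B' hAB' hBA' T hTB hTA (fun a _ b _ h => ?_) ?_
    · refine Subtype.ext (htf _ p hp.pos ?_)
      have := congrArg Subtype.val h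
      simpa using this
    · intro c' u' hcu'
      unfold clsM
      rw [if_neg]
      intro h
      exact hcu' (isConj_one_right.1 h)
  · have hc1 : (c : Γ) ≠ 1 := by
      intro h
      have h1 : c = 1 := Subtype.ext h
      rw [h1, isConj_one_left] at hcc
      exact hc hcc
    have hfew : FewRoots (c : Γ) := by
      rcases hsupp _ _ hne with h | h
      · exact absurd h.1 hc1
      · exact h
    have hgood : ∀ v : H, {p : ℕ | p.Prime ∧ IsConj c0 (v ^ p)}.Finite := by
      intro v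
      refine (hfew H hH c.2 v v.2).subset ?_
      rintro q ⟨hq, hqc⟩
      exact ⟨hq, isConj_of_sub (hcc.symm.trans hqc)⟩
    by_cases hP0 : ∃ c1 ∈ P, IsConj c0 c1
    · obtain ⟨c1, hc1P, hc01⟩ := hP0
      have hc1G : c1 ∈ G := by
        refine ⟨hc1P, fun v => (hgood v).subset ?_⟩
        rintro q ⟨hq, hqc⟩
        exact ⟨hq, hc01.trans hqc⟩
      refine zmod_cls hp hmp hω'' A' B' hAB' hBA' T hTB hTA c0 (fun a ha b hb hconj => ?_) ?_
      · have h1 : p ∈ (⋃ c ∈ hGf.toFinset, ⋃ a ∈ hT.toFinset, ⋃ b ∈ hT.toFinset,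
            {p : ℕ | p.Prime ∧ IsConj c ((a * b) ^ p)}) := by
          simp only [Set.mem_iUnion]
          exact ⟨c1, hGf.mem_toFinset.2 hc1G, a, hT.mem_toFinset.2 ha, b, hT.mem_toFinset.2 hb,
            hp, hc01.symm.trans hconj⟩
        have h2 := hN h1
        omega
      · intro c' u' hcu'
        unfold clsM
        rw [if_neg hcu']
    · refine pairing_eq_zero_of_support A' B' T hTB hTA fun v hv hvT => ?_
      unfold clsM
      rw [if_neg]
      intro h
      exact hP0 ⟨v.prod, ⟨v, ⟨hv, hvT⟩, rfl⟩, h⟩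

lemma chern_int {ω : Γ → List Γ → ℤ} (A B : Matrix (Fin n) (Fin n) (MonoidAlgebra ℤ Γ)) :
    chern m A B ω = pairing m A B ω := rfl

/-- Integral cocycles. -/
theorem main_int (htf : ∀ g : Γ, ∀ k : ℕ, 0 < k → g ^ k = 1 → g = 1)
    (A B : Matrix (Fin n) (Fin n) (MonoidAlgebra ℤ Γ)) (hAB : A * B = 1) (hBA : B * A = 1)
    {ω : Γ → List Γ → ℤ} (hω : IsCyclicCocycle (2 * (m + 1)) ω)
    (hsupp : ∀ c u, ω c u ≠ 0 → (c = 1 ∧ 0 < m) ∨ FewRoots c ∨ FewPowers c) :
    pairing m A B ω = 0 := by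
  classical
  obtain ⟨H, A', B', hH, hAB', hBA', hres⟩ := exists_restrictM.{0} A B hAB hBA
  obtain ⟨T, hT, hTB, hTA⟩ := exists_T A' B'
  rw [hres ℤ m ω]
  refine pairing_split A' B' fun c0 => ?_
  have hω'' := clsM_cocycle (resM_cocycle hω H) c0
  rcases clsM_zero_or c0 (resM H ω) with hz | ⟨c, u, hcc, hne⟩
  · rw [hz]
    exact pairing_zero A' B'
  -- a number divisible by infinitely many primes
  have hinf : ∀ E : Set ℕ, E.Finite → (∀ p : ℕ, p.Prime → m < p → p ∉ E →
      (p : ℤ) ∣ pairing m A' B' (clsM c0 (resM H ω))) →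
      pairing m A' B' (clsM c0 (resM H ω)) = 0 := by
    intro E hE h
    obtain ⟨N, hN⟩ := hE.bddAbove
    obtain ⟨p, hNp, hp⟩ := Nat.exists_infinite_primes
      (max (m + 1) (max (N + 1) ((pairing m A' B' (clsM c0 (resM H ω))).natAbs + 1)))
    simp only [max_le_iff] at hNp
    refine Int.eq_zero_of_abs_lt_dvd (h p hp (by omega) fun hpE => ?_) ?_
    · have := hN hpE
      omega
    · rw [Int.abs_eq_natAbs]
      exact_mod_cast (by omega : (pairing m A' B' (clsM c0 (resM H ω))).natAbs < p)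
  have hcast : ∀ p : ℕ, pairing m A' B' (fun c u => (Int.castAddHom (ZMod p))
      (clsM c0 (resM H ω) c u)) = 0 → (p : ℤ) ∣ pairing m A' B' (clsM c0 (resM H ω)) := by
    intro p h
    rw [pairing_map] at h
    exact (ZMod.intCast_zmod_eq_zero_iff_dvd _ p).1 h
  by_cases hc : c0 = 1
  · subst hc
    have hc1 : c = 1 := isConj_one_right.1 hcc
    have hm : 0 < m := by
      rcases hsupp _ _ hne with h | h | h
      · exact h.2
      · rw [hc1] at h
        exact absurd h not_fewRoots_one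
      · rw [hc1] at h
        exact absurd h not_fewPowers_one
    refine hinf ∅ Set.finite_empty fun p hp hmp _ => hcast p ?_
    refine zmod_one hp hm hmp (hω''.map _) A' B' hAB' hBA' T hTB hTA (fun a _ b _ h => ?_) ?_
    · refine Subtype.ext (htf _ p hp.pos ?_)
      have := congrArg Subtype.val h
      simpa using this
    · intro c' u' hcu'
      unfold clsM
      rw [if_neg, map_zero]
      intro h
      exact hcu' (isConj_one_right.1 h)
  · have hc1 : (c : Γ) ≠ 1 := by
      intro h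
      have h1 : c = 1 := Subtype.ext h
      rw [h1, isConj_one_left] at hcc
      exact hc hcc
    rcases hsupp _ _ hne with h | hfew | hpow
    · exact absurd h.1 hc1
    · have hE : (⋃ a ∈ hT.toFinset, ⋃ b ∈ hT.toFinset,
          {p : ℕ | p.Prime ∧ IsConj c0 ((a * b) ^ p)}).Finite := by
        refine Set.Finite.biUnion (Finset.finite_toSet _) fun a _ => ?_
        refine Set.Finite.biUnion (Finset.finite_toSet _) fun b _ => ?_
        refine (hfew H hH c.2 (a * b : H) (a * b : H).2).subset ?_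
        rintro q ⟨hq, hqc⟩
        exact ⟨hq, isConj_of_sub (hcc.symm.trans hqc)⟩
      refine hinf _ hE fun p hp hmp hpE => hcast p ?_
      refine zmod_cls hp hmp (hω''.map _) A' B' hAB' hBA' T hTB hTA c0
        (fun a ha b hb hconj => hpE ?_) ?_
      · simp only [Set.mem_iUnion]
        exact ⟨a, hT.mem_toFinset.2 ha, b, hT.mem_toFinset.2 hb, hp, hconj⟩
      · intro c' u' hcu'
        unfold clsM
        rw [if_neg hcu', map_zero]
    · obtain ⟨p, hp, hx⟩ := hpow H hH c.2
      rw [← chern_int]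
      refine int_cls hω'' A' B' hAB' hBA' T hT hTB hTA hp c0 (fun v => ?_) ?_
      · refine (hx v v.2).subset ?_
        intro i hi
        exact isConj_of_sub (hcc.symm.trans hi)
      · intro c' u' hcu'
        unfold clsM
        rw [if_neg hcu']

end Pool.Agent.Lib.MP_8f66f0_al_ChernS
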