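import Mathlib
import Pool.Agent.Lib.MP_8f66f0_al_ChernS.Main
import Pool.Agent.Lib.MP_8f66f0_al_Dennis.Separated

/-! # The final statement. -/

set_option autoImplicit false

namespace Pool.Agent.Lib.MP_8f66f0_al_ChernS

open Pool.Agent.Lib.MP_8f66f0_al_FinQ Pool.Agent.Lib.MP_8f66f0_al_Uni
open Pool.Agent.Lib.MP_8f66f0_al_Dennis

universe u v w

/-- In an admissible group all nontrivial elements have few roots. -/
theorem fewRoots_of_admissible {Γ : Type u} [Group Γ] (h : Admissible.{v} Γ) (c : Γ) (hc : c ≠ 1) :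
    FewRoots c := by
  intro H hH hcH v hv
  by_cases hv1 : v = 1
  · refine Set.finite_empty.subset ?_
    rintro p ⟨-, t, -, ht⟩
    refine hc ?_
    rw [← ht, hv1, one_pow]
    group
  · have h1 := (h.separated H hH).conj ⟨c, hcH⟩ ⟨v, hv⟩ (fun h2 => hv1 (congrArg Subtype.val h2))
    refine h1.subset ?_
    rintro p ⟨hp, t, ht, htc⟩
    refine ⟨hp, IsConj.symm (isConj_iff.2 ⟨⟨t, ht⟩, Subtype.ext ?_⟩)⟩
    exact htc

/-- An element which is not a `p^k`-th power is conjugate to `v^(p^i)` for finitely many `i`. -/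
theorem fewPowers_of_undivided {Γ : Type u} [Group Γ] (c : Γ)
    (h : ∀ H : Subgroup Γ, H.FG → c ∈ H → ∃ p k : ℕ, p.Prime ∧ ∀ x ∈ H, x ^ p ^ k ≠ c) :
    FewPowers c := by
  intro H hH hcH
  obtain ⟨p, k, hp, hx⟩ := h H hH hcH
  refine ⟨p, hp, fun v hv => (Set.finite_Iio k).subset ?_⟩
  rintro i ⟨t, ht, htc⟩
  by_contra hi
  rw [Set.mem_Iio, not_lt] at hi
  refine hx (t * v ^ p ^ (i - k) * t⁻¹)
    (H.mul_mem (H.mul_mem ht (H.pow_mem hv _)) (H.inv_mem ht)) ?_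
  rw [conj_pow, ← pow_mul, ← pow_add, Nat.sub_add_cancel hi]
  exact htc

theorem final :
    ∀ (Γ : Type u) [Group Γ], (∀ g : Γ, ∀ k : ℕ, 0 < k → g ^ k = 1 → g = 1) →
    ∀ (n m : ℕ) (A B : Matrix (Fin n) (Fin n) (MonoidAlgebra ℤ Γ)), A * B = 1 → B * A = 1 →
    (∀ (M : Type w) [AddCommGroup M] (ω : Γ → List Γ → M),
      IsCyclicCocycle (2 * (m + 1)) ω → 0 < m → (∀ c u, c ≠ 1 → ω c u = 0) →
      ∀ p : ℕ, p.Prime → m < p → ∃ x : M, pairing m A B ω = p • x) ∧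
    (∃ N : ℕ, ∀ p : ℕ, p.Prime → N < p → ∀ (M : Type w) [AddCommGroup M] (ω : Γ → List Γ → M),
      IsCyclicCocycle (2 * (m + 1)) ω →
      (∀ c u, ω c u ≠ 0 → (c = 1 ∧ 0 < m) ∨ FewRoots c) → ∃ x : M, pairing m A B ω = p • x) ∧
    (∀ ω : Γ → List Γ → ℤ, IsCyclicCocycle (2 * (m + 1)) ω →
      (∀ c u, ω c u ≠ 0 → (c = 1 ∧ 0 < m) ∨ FewRoots c ∨ FewPowers c) →
      pairing m A B ω = 0) ∧
    (Admissible.{v} Γ → ∀ c : Γ, c ≠ 1 → FewRoots c) :=
  fun _ _ htf _ m A B hAB hBA =>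
    ⟨fun _ _ _ hω hm hsupp _ hp hmp => main_one htf A B hAB hBA hω hm hsupp hp hmp,
      main_almost htf A B hAB hBA m,
      fun _ hω hsupp => main_int htf A B hAB hBA hω hsupp,
      fun h c hc => fewRoots_of_admissible h c hc⟩

end Pool.Agent.Lib.MP_8f66f0_al_ChernS
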